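import Pool.Agent.TetMir57.Defs
import Pool.Agent.TetDim.Final

/-! # Mirror tetrahedra: algebraicity of edge ratios (helper30, package A of helper57's plan) -/

set_option autoImplicit false

namespace Pool.Agent.TetMir

open Pool.Agent.TetRel Pool.Agent.TetDim

theorem alg_sin_of_cos {x : ℝ} (h : IsAlgebraic ℚ (Real.cos x)) : IsAlgebraic ℚ (Real.sin x) := by
  refine IsAlgebraic.of_pow (n := 2) (by norm_num) ?_
  rw [Real.sin_sq]
  exact isAlgebraic_one.sub (h.pow 2)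

theorem alg_xpoly {a b c d e f : ℝ} (ha : IsAlgebraic ℚ a) (hb : IsAlgebraic ℚ b)
    (hc : IsAlgebraic ℚ c) (hd : IsAlgebraic ℚ d) (he : IsAlgebraic ℚ e) (hf : IsAlgebraic ℚ f) :
    IsAlgebraic ℚ (TET.xpoly a b c d e f) := by
  unfold TET.xpoly
  exact (((ha.mul (isAlgebraic_one.sub (hb.pow 2))).add (hc.mul hd)).add (he.mul hf)).add
    (hb.mul ((hc.mul hf).add (he.mul hd)))

theorem alg_xfun {c : Fin 6 → ℝ} (h : ∀ e, IsAlgebraic ℚ (c e)) (e : Fin 6) :
    IsAlgebraic ℚ (TET.xfun c e) := by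
  fin_cases e <;>
    exact alg_xpoly (h _) (h _) (h _) (h _) (h _) (h _)

theorem alg_of_cos (v : Fin 4 → E3) (hv : AffineIndependent ℝ v)
    (h : ∀ e, IsAlgebraic ℚ (Real.cos (dih v e))) : AlgLen v := by
  intro i j
  obtain ⟨s, hs, hl⟩ := TET.len_eq v hv
  have hphi : ∀ e, IsAlgebraic ℚ (TET.phi (dih v) e) := fun e =>
    (alg_sin_of_cos (h e)).mul (alg_xfun h e)
  rw [hl i, hl j, mul_div_mul_left _ _ hs.ne', div_eq_mul_inv]
  exact (hphi i).mul (hphi j).inv

theorem dih_mir (v : Fin 4 → E3) (hv : AffineIndependent ℝ v) (hm : Mir (len v)) :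
    dih v 1 = dih v 3 ∧ dih v 2 = dih v 4 := by
  obtain ⟨-, -, -, hd, -⟩ := basic v hv
  obtain ⟨h1, h2⟩ := hm
  constructor
  · rw [hd 1, hd 3]
    have hN : N (len v) 1 = N (len v) 3 := by
      simp [N, num, ← h1, ← h2]
    have hF : F (len v) (ec 1) * F (len v) (ed 1) = F (len v) (ec 3) * F (len v) (ed 3) := by
      simp [F, ec, ed, ← h1, ← h2]
    unfold Th
    rw [hN, hF]
  · rw [hd 2, hd 4]
    have hN : N (len v) 2 = N (len v) 4 := by
      simp [N, num, ← h1, ← h2]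
    have hF : F (len v) (ec 2) * F (len v) (ed 2) = F (len v) (ec 4) * F (len v) (ed 4) := by
      simp [F, ec, ed, ← h1, ← h2]
    unfold Th
    rw [hN, hF]

theorem alg_of_ang (v : Fin 4 → E3) (hv : AffineIndependent ℝ v) (hm : Mir (len v))
    (h : ∀ e, IsAlgebraic ℚ (Real.cos (ang v e))) : AlgLen v := by
  obtain ⟨h1, h2⟩ := dih_mir v hv hm
  refine alg_of_cos v hv fun e => ?_
  have e0 : IsAlgebraic ℚ (Real.cos (dih v 0)) := h 0
  have e5 : IsAlgebraic ℚ (Real.cos (dih v 5)) := h 1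
  have e1 : IsAlgebraic ℚ (Real.cos (dih v 1)) := h 2
  have e2 : IsAlgebraic ℚ (Real.cos (dih v 2)) := h 3
  have e3 : IsAlgebraic ℚ (Real.cos (dih v 3)) := h1 ▸ e1
  have e4 : IsAlgebraic ℚ (Real.cos (dih v 4)) := h2 ▸ e2
  fin_cases e
  · exact e0
  · exact e1
  · exact e2
  · exact e3
  · exact e4
  · exact e5

theorem alg_cos_pi (q : ℚ) : IsAlgebraic ℚ (Real.cos (Real.pi * q)) := by
  have h : IsAlgebraic ℤ (Real.cos (q * Real.pi)) := Real.isAlgebraic_cos_rat_mul_pi q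
  rw [mul_comm]
  exact (IsFractionRing.isAlgebraic_iff ℤ ℚ ℝ).1 h

/-- `m = 4` -/
theorem four (v : Fin 4 → E3) (hv : AffineIndependent ℝ v) (hm : Mir (len v))
    (N : Fin 4 → Fin 4 → ℕ)
    (hN : LinearIndependent ℝ (fun i : Fin 4 => fun e : Fin 4 => (N i e : ℝ)))
    (ha : ∀ i, ∑ e, (N i e : ℝ) * ang v e = 2 * Real.pi) : AlgLen v := by
  let M : Matrix (Fin 4) (Fin 4) ℚ := Matrix.of fun i e => (N i e : ℚ)
  have hMR : M.map (algebraMap ℚ ℝ) = Matrix.of fun i e => (N i e : ℝ) := by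
    ext i e
    simp [M]
  have hdetR : (M.map (algebraMap ℚ ℝ)).det ≠ 0 := by
    rw [hMR]
    have h1 : LinearIndependent ℝ (Matrix.of fun i e : Fin 4 => (N i e : ℝ)).row := hN
    have h2 := Matrix.linearIndependent_rows_iff_isUnit.1 h1
    exact ((Matrix.isUnit_iff_isUnit_det _).1 h2).ne_zero
  have hdet : M.det ≠ 0 := by
    intro h0
    apply hdetR
    have : (M.map (algebraMap ℚ ℝ)).det = algebraMap ℚ ℝ M.det := by
      rw [RingHom.map_det]; rfl
    rw [this, h0, map_zero]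
  have hinv : M⁻¹ * M = 1 := Matrix.nonsing_inv_mul _ (isUnit_iff_ne_zero.2 hdet)
  have hq : ∀ e, ang v e = Real.pi * ((∑ i, M⁻¹ e i * 2 : ℚ) : ℝ) := by
    intro e
    have h1 : ∀ i, ∑ k, (M i k : ℝ) * ang v k = 2 * Real.pi := by
      intro i
      rw [← ha i]
      refine Finset.sum_congr rfl fun k _ => ?_
      simp [M]
    have h2 : ∑ i, ((M⁻¹ e i : ℚ) : ℝ) * ∑ k, (M i k : ℝ) * ang v k = ang v e := by
      simp only [Finset.mul_sum]
      rw [Finset.sum_comm]
      have h3 : ∀ k, ∑ i, ((M⁻¹ e i : ℚ) : ℝ) * ((M i k : ℝ) * ang v k) =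
          (((M⁻¹ * M) e k : ℚ) : ℝ) * ang v k := by
        intro k
        rw [Matrix.mul_apply]
        push_cast
        rw [Finset.sum_mul]
        exact Finset.sum_congr rfl fun i _ => by ring
      have h4 : ∀ k, (((1 : Matrix (Fin 4) (Fin 4) ℚ) e k : ℚ) : ℝ) = if e = k then 1 else 0 := by
        intro k
        rw [Matrix.one_apply]
        split_ifs <;> simp
      simp only [h3, hinv, h4]
      simp
    rw [← h2]
    simp only [h1]
    push_cast
    rw [Finset.mul_sum]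
    exact Finset.sum_congr rfl fun i _ => by ring
  refine alg_of_ang v hv hm fun e => ?_
  rw [hq e]
  exact alg_cos_pi _

end Pool.Agent.TetMir
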