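import Pool.Agent.TetMir57.Defs

/-! # Mirror tetrahedra: the identities extend along a transcendental line (helper34) -/

set_option autoImplicit false

namespace Pool.Agent.TetMir

open Polynomial

/-- Laurent polynomials in `exp (s i)` with algebraic coefficients -/
def Laur (g : ℝ → ℂ) : Prop :=
  ∃ (M : ℕ) (p : Polynomial (algebraicClosure ℚ ℂ)), ∀ s : ℝ,
    Complex.exp (s * Complex.I) ^ M * g s = aeval (Complex.exp (s * Complex.I)) p

theorem Laur.add {g h : ℝ → ℂ} (hg : Laur g) (hh : Laur h) : Laur (fun s => g s + h s) := by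
  obtain ⟨M, p, hp⟩ := hg
  obtain ⟨N, r, hr⟩ := hh
  refine ⟨M + N, X ^ N * p + X ^ M * r, fun s => ?_⟩
  rw [map_add, map_mul, map_mul, map_pow, map_pow, aeval_X, ← hp s, ← hr s]
  ring

theorem Laur.mul {g h : ℝ → ℂ} (hg : Laur g) (hh : Laur h) : Laur (fun s => g s * h s) := by
  obtain ⟨M, p, hp⟩ := hg
  obtain ⟨N, r, hr⟩ := hh
  refine ⟨M + N, p * r, fun s => ?_⟩
  rw [map_mul, ← hp s, ← hr s]
  ring

theorem Laur.const {c : ℂ} (hc : IsAlgebraic ℚ c) : Laur (fun _ => c) := by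
  refine ⟨0, C (⟨c, mem_algebraicClosure_iff'.mpr hc.isIntegral⟩ : (algebraicClosure ℚ ℂ)), fun s => ?_⟩
  rw [aeval_C, pow_zero, one_mul]
  rfl

theorem alg_root (q : ℚ) : IsAlgebraic ℚ (Complex.exp ((Real.pi * q : ℝ) * Complex.I)) := by
  have h1 : Complex.exp ((Real.pi * q : ℝ) * Complex.I) ^ (2 * q.den) = 1 := by
    rw [← Complex.exp_nat_mul]
    rw [Complex.exp_eq_one_iff]
    refine ⟨q.num, ?_⟩
    have : (q : ℂ) = (q.num : ℂ) / (q.den : ℂ) := by
      exact_mod_cast (Rat.num_div_den q).symm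
    have hd : (q.den : ℂ) ≠ 0 := by exact_mod_cast q.den_nz
    push_cast
    rw [this]
    field_simp
  have h2 : IsIntegral ℚ (Complex.exp ((Real.pi * q : ℝ) * Complex.I) ^ (2 * q.den)) := by
    rw [h1]; exact isIntegral_one
  exact (IsIntegral.of_pow (by have := q.den_pos; omega) h2).isAlgebraic

theorem Laur.exp (q : ℚ) (w : ℤ) :
    Laur (fun s => Complex.exp (((Real.pi * q + s * w : ℝ) : ℂ) * Complex.I)) := by
  refine ⟨w.natAbs, C (⟨_, mem_algebraicClosure_iff'.mpr (alg_root q).isIntegral⟩ : (algebraicClosure ℚ ℂ)) *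
    X ^ ((w.natAbs : ℤ) + w).toNat, fun s => ?_⟩
  rw [map_mul, map_pow, aeval_X, aeval_C]
  have e1 : ((((w.natAbs : ℤ) + w).toNat : ℕ) : ℂ) = (w.natAbs : ℂ) + w := by
    have h1 : (((w.natAbs : ℤ) + w).toNat : ℤ) = (w.natAbs : ℤ) + w :=
      Int.toNat_of_nonneg (by omega)
    have h2 : ((((w.natAbs : ℤ) + w).toNat : ℤ) : ℂ) = (((w.natAbs : ℤ) + w : ℤ) : ℂ) := by
      rw [h1]
    rw [Int.cast_natCast, Int.cast_add, Int.cast_natCast] at h2
    exact h2
  have e2 : (algebraMap (algebraicClosure ℚ ℂ) ℂ) (⟨_, mem_algebraicClosure_iff'.mpr (alg_root q).isIntegral⟩ : (algebraicClosure ℚ ℂ)) =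
      Complex.exp ((Real.pi * q : ℝ) * Complex.I) := rfl
  rw [e2, ← Complex.exp_nat_mul, ← Complex.exp_nat_mul, ← Complex.exp_add, ← Complex.exp_add, e1]
  congr 1
  push_cast
  ring

theorem alg_half : IsAlgebraic ℚ (1 / 2 : ℂ) := by
  have := isAlgebraic_algebraMap (R := ℚ) (A := ℂ) (1 / 2 : ℚ)
  simpa using this

theorem alg_I : IsAlgebraic ℚ Complex.I := by
  have h2 : IsIntegral ℚ (Complex.I ^ 4) := by
    rw [Complex.I_pow_four]; exact isIntegral_one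
  exact (IsIntegral.of_pow (by norm_num) h2).isAlgebraic

theorem Laur.cos (q : ℚ) (w : ℤ) :
    Laur (fun s => Complex.cos ((Real.pi * q + s * w : ℝ) : ℂ)) := by
  have h := ((Laur.exp q w).add (Laur.exp (-q) (-w))).mul (Laur.const alg_half)
  have e : (fun s : ℝ => Complex.cos ((Real.pi * q + s * w : ℝ) : ℂ)) = fun s : ℝ =>
      (Complex.exp (((Real.pi * q + s * w : ℝ) : ℂ) * Complex.I) +
      Complex.exp (((Real.pi * ((-q : ℚ) : ℝ) + s * ((-w : ℤ) : ℝ) : ℝ) : ℂ) * Complex.I)) *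
        (1 / 2) := by
    funext s
    rw [Complex.cos]
    have : -((Real.pi * q + s * w : ℝ) : ℂ) * Complex.I =
        (((Real.pi * ((-q : ℚ) : ℝ) + s * ((-w : ℤ) : ℝ) : ℝ) : ℂ) * Complex.I) := by
      push_cast
      ring
    rw [this]
    ring
  rw [e]
  exact h

theorem Laur.sin (q : ℚ) (w : ℤ) :
    Laur (fun s => Complex.sin ((Real.pi * q + s * w : ℝ) : ℂ)) := by
  have h := (((Laur.exp (-q) (-w)).mul (Laur.const alg_I)).add
    ((Laur.exp q w).mul (Laur.const alg_I.neg))).mul (Laur.const alg_half)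
  have e : (fun s : ℝ => Complex.sin ((Real.pi * q + s * w : ℝ) : ℂ)) = fun s : ℝ =>
      (Complex.exp (((Real.pi * ((-q : ℚ) : ℝ) + s * ((-w : ℤ) : ℝ) : ℝ) : ℂ) * Complex.I) *
        Complex.I + Complex.exp (((Real.pi * q + s * w : ℝ) : ℂ) * Complex.I) * (-Complex.I)) *
        (1 / 2) := by
    funext s
    rw [Complex.sin]
    have : -((Real.pi * q + s * w : ℝ) : ℂ) * Complex.I =
        (((Real.pi * ((-q : ℚ) : ℝ) + s * ((-w : ℤ) : ℝ) : ℝ) : ℂ) * Complex.I) := by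
      push_cast
      ring
    rw [this]
    ring
  rw [e]
  exact h

theorem Laur.zero {g : ℝ → ℂ} (hg : Laur g) (t : ℝ)
    (ht : ¬ IsAlgebraic ℚ (Complex.exp (t * Complex.I))) (h0 : g t = 0) (s : ℝ) : g s = 0 := by
  obtain ⟨M, p, hp⟩ := hg
  have h1 := hp t
  rw [h0, mul_zero] at h1
  have hp0 : p = 0 := by
    by_contra hne
    have : Algebra.IsAlgebraic ℚ (algebraicClosure ℚ ℂ) := algebraicClosure.isAlgebraic ℚ ℂ
    exact ht (IsAlgebraic.restrictScalars ℚ (⟨p, hne, h1.symm⟩ :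
      IsAlgebraic (algebraicClosure ℚ ℂ) (Complex.exp (t * Complex.I))))
  have h2 := hp s
  rw [hp0, map_zero] at h2
  rcases mul_eq_zero.mp h2 with h | h
  · exact absurd h (pow_ne_zero _ (Complex.exp_ne_zero _))
  · exact h

theorem extend_aux (q0 q1 q2 q3 : ℚ) (w0 w1 w2 w3 : ℤ) (t : ℝ)
    (ht : ¬ IsAlgebraic ℚ (Complex.exp (t * Complex.I)))
    (h : 2 * (Real.cos (Real.pi * q3 + t * w3) + Real.cos (Real.pi * q0 + t * w0) *
      Real.cos (Real.pi * q2 + t * w2)) ^ 2 +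
      (Real.cos (Real.pi * q1 + t * w1) + Real.cos (2 * (Real.pi * q2 + t * w2))) *
        Real.sin (Real.pi * q0 + t * w0) ^ 2 = 0) (s : ℝ) :
    2 * (Real.cos (Real.pi * q3 + s * w3) + Real.cos (Real.pi * q0 + s * w0) *
      Real.cos (Real.pi * q2 + s * w2)) ^ 2 +
      (Real.cos (Real.pi * q1 + s * w1) + Real.cos (2 * (Real.pi * q2 + s * w2))) *
        Real.sin (Real.pi * q0 + s * w0) ^ 2 = 0 := by
  have hL := (((Laur.const (isAlgebraic_algebraMap (R := ℚ) (A := ℂ) 2)).mul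
    (((Laur.cos q3 w3).add ((Laur.cos q0 w0).mul (Laur.cos q2 w2))).mul
      ((Laur.cos q3 w3).add ((Laur.cos q0 w0).mul (Laur.cos q2 w2))))).add
    (((Laur.cos q1 w1).add (Laur.cos (2 * q2) (2 * w2))).mul
      ((Laur.sin q0 w0).mul (Laur.sin q0 w0))))
  have key : ∀ r : ℝ,
      ((2 * (Real.cos (Real.pi * q3 + r * w3) + Real.cos (Real.pi * q0 + r * w0) *
      Real.cos (Real.pi * q2 + r * w2)) ^ 2 +
      (Real.cos (Real.pi * q1 + r * w1) + Real.cos (2 * (Real.pi * q2 + r * w2))) *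
        Real.sin (Real.pi * q0 + r * w0) ^ 2 : ℝ) : ℂ) =
      (algebraMap ℚ ℂ) 2 * ((Complex.cos ((Real.pi * q3 + r * w3 : ℝ) : ℂ) +
        Complex.cos ((Real.pi * q0 + r * w0 : ℝ) : ℂ) *
        Complex.cos ((Real.pi * q2 + r * w2 : ℝ) : ℂ)) *
        (Complex.cos ((Real.pi * q3 + r * w3 : ℝ) : ℂ) +
        Complex.cos ((Real.pi * q0 + r * w0 : ℝ) : ℂ) *
        Complex.cos ((Real.pi * q2 + r * w2 : ℝ) : ℂ))) +
      (Complex.cos ((Real.pi * q1 + r * w1 : ℝ) : ℂ) +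
        Complex.cos ((Real.pi * ((2 * q2 : ℚ) : ℝ) + r * ((2 * w2 : ℤ) : ℝ) : ℝ) : ℂ)) *
      (Complex.sin ((Real.pi * q0 + r * w0 : ℝ) : ℂ) *
        Complex.sin ((Real.pi * q0 + r * w0 : ℝ) : ℂ)) := by
    intro r
    have e1 : Real.pi * ((2 * q2 : ℚ) : ℝ) + r * ((2 * w2 : ℤ) : ℝ) =
        2 * (Real.pi * q2 + r * w2) := by push_cast; ring
    rw [e1]
    simp only [← Complex.ofReal_cos, ← Complex.ofReal_sin]
    have e2 : (algebraMap ℚ ℂ) 2 = ((2 : ℝ) : ℂ) := by simp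
    rw [e2]
    norm_cast
    ring
  have h0 := Laur.zero hL t ht (by rw [← key t, h]; simp) s
  rw [← key s] at h0
  exact_mod_cast h0

theorem extend (q : Fin 4 → ℚ) (w : Fin 4 → ℤ) (t : ℝ)
    (ht : ¬ IsAlgebraic ℚ (Complex.exp (t * Complex.I))) :
    (f1 (fun e => Real.pi * q e + t * w e) = 0 →
      ∀ s : ℝ, f1 (fun e => Real.pi * q e + s * w e) = 0) ∧
    (f2 (fun e => Real.pi * q e + t * w e) = 0 →
      ∀ s : ℝ, f2 (fun e => Real.pi * q e + s * w e) = 0) := by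
  constructor
  · intro h s
    exact extend_aux (q 0) (q 1) (q 2) (q 3) (w 0) (w 1) (w 2) (w 3) t ht h s
  · intro h s
    exact extend_aux (q 0) (q 1) (q 3) (q 2) (w 0) (w 1) (w 3) (w 2) t ht h s

end Pool.Agent.TetMir
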