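import Pool.Agent.TetMir57.Defs
import Pool.Agent.TetDim.Final

/-! # The identities and inequalities of a mirror tetrahedron -/

set_option autoImplicit false

namespace Pool.Agent.TetMir

open Pool.Agent.TetRel Pool.Agent.TetDim

theorem Th_mir {l : Fin 6 → ℝ} (h : Mir l) : Th l 1 = Th l 3 ∧ Th l 2 = Th l 4 := by
  obtain ⟨h1, h2⟩ := h
  have hF : F l 0 = F l 1 := by
    show heron (l 3) (l 4) (l 5) = heron (l 1) (l 2) (l 5)
    rw [h1, h2]
  constructor
  · have hN : N l 1 = N l 3 := by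
      show num (l 1) (l 0) (l 3) (l 2) (l 5) (l 4) = num (l 3) (l 0) (l 1) (l 4) (l 5) (l 2)
      rw [h1, h2]
    have hE : F l (ec 1) * F l (ed 1) = F l (ec 3) * F l (ed 3) := by
      simp only [ec, ed]
      simp [hF]
    rw [Th, Th, hN, hE]
  · have hN : N l 2 = N l 4 := by
      show num (l 2) (l 0) (l 4) (l 1) (l 5) (l 3) = num (l 4) (l 0) (l 2) (l 3) (l 5) (l 1)
      rw [h1, h2]
    have hE : F l (ec 2) * F l (ed 2) = F l (ec 4) * F l (ed 4) := by
      simp only [ec, ed]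
      simp [hF]
    rw [Th, Th, hN, hE]

theorem dih_mir (v : Fin 4 → E3) (hv : AffineIndependent ℝ v) (hm : Mir (len v)) :
    dih v 1 = dih v 3 ∧ dih v 2 = dih v 4 := by
  obtain ⟨_, _, _, h, _⟩ := basic v hv
  rw [h 1, h 2, h 3, h 4]
  exact Th_mir hm

theorem strict {x y : ℝ} (h1 : Real.pi < x + x + y) (h2 : x + x + y < Real.pi + 2 * y)
    (h3 : y ≤ Real.pi) : Real.cos y + Real.cos (2 * x) < 0 := by
  have h4 : |Real.pi - 2 * x| < y := abs_lt.2 ⟨by linarith, by linarith⟩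
  have h5 := Real.cos_lt_cos_of_nonneg_of_le_pi (abs_nonneg _) h3 h4
  rw [Real.cos_abs, Real.cos_pi_sub] at h5
  linarith

theorem ident (v : Fin 4 → E3) (hv : AffineIndependent ℝ v) (hm : Mir (len v)) :
    f1 (ang v) = 0 ∧ f2 (ang v) = 0 ∧
    Real.cos (ang v 1) + Real.cos (2 * ang v 2) < 0 ∧
    Real.cos (ang v 1) + Real.cos (2 * ang v 3) < 0 ∧
    ∀ e, 0 < ang v e ∧ ang v e < Real.pi := by
  obtain ⟨_, _, _, _, hd⟩ := basic v hv
  obtain ⟨e13, e24⟩ := dih_mir v hv hm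
  have hg := gram_eq_zero v hv
  have hst := star v hv
  have a0 : ang v 0 = dih v 0 := rfl
  have a1 : ang v 1 = dih v 5 := rfl
  have a2 : ang v 2 = dih v 1 := rfl
  have a3 : ang v 3 = dih v 2 := rfl
  -- the Gram determinant
  have hg' : (1 + Real.cos (dih v 5)) * ((1 - Real.cos (dih v 5)) * (1 - Real.cos (dih v 0) ^ 2) -
      2 * (Real.cos (dih v 1) ^ 2 + Real.cos (dih v 2) ^ 2 +
        2 * Real.cos (dih v 0) * Real.cos (dih v 1) * Real.cos (dih v 2))) = 0 := by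
    rw [TetDim.gram, ← e13, ← e24] at hg
    rw [← hg]
    ring
  have hc5 : 0 < 1 + Real.cos (dih v 5) := by
    have h1 := Real.cos_lt_cos_of_nonneg_of_le_pi (hd 5).1.le le_rfl (hd 5).2
    rw [Real.cos_pi] at h1
    linarith
  have hk := (mul_eq_zero.1 hg').resolve_left hc5.ne'
  have hsin : Real.sin (dih v 0) ^ 2 = 1 - Real.cos (dih v 0) ^ 2 := Real.sin_sq _
  refine ⟨?_, ?_, ?_, ?_, ?_⟩
  · rw [f1, a0, a1, a2, a3, hsin, Real.cos_two_mul]
    linear_combination - hk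
  · rw [f2, a0, a1, a2, a3, hsin, Real.cos_two_mul]
    linear_combination - hk
  · rw [a1, a2]
    obtain ⟨h1, h2⟩ := hst 2
    have hA : A (dih v) 2 = dih v 1 + dih v 1 + dih v 5 := by
      show dih v 1 + dih v 3 + dih v 5 = _
      rw [← e13]
    have h3 := h2 2
    have h4 : dih v (st 2 2) = dih v 5 := rfl
    rw [hA] at h1 h3
    rw [h4] at h3
    exact strict h1 h3 (hd 5).2.le
  · rw [a1, a3]
    obtain ⟨h1, h2⟩ := hst 3
    have hA : A (dih v) 3 = dih v 2 + dih v 2 + dih v 5 := by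
      show dih v 2 + dih v 4 + dih v 5 = _
      rw [← e24]
    have h3 := h2 2
    have h4 : dih v (st 3 2) = dih v 5 := rfl
    rw [hA] at h1 h3
    rw [h4] at h3
    exact strict h1 h3 (hd 5).2.le
  · intro e
    fin_cases e
    · exact hd 0
    · exact hd 5
    · exact hd 1
    · exact hd 2

end Pool.Agent.TetMir
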