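import Pool.Agent.TetMir57.Defs

set_option autoImplicit false

namespace Pool.Agent.TetMir

/-- Three linearly independent vectors of integers in dimension four, with the same value `2 π` at
`x`: the point `x` lies on a line with a rational (up to the factor `π`) base point and an integer
direction. -/
theorem rat_line (N : Fin 3 → Fin 4 → ℕ)
    (hN : LinearIndependent ℝ (fun i : Fin 3 => fun e : Fin 4 => (N i e : ℝ)))
    (x : Fin 4 → ℝ) (ha : ∀ i, ∑ e, (N i e : ℝ) * x e = 2 * Real.pi) :
    ∃ (q : Fin 4 → ℚ) (w : Fin 4 → ℤ) (t : ℝ), w ≠ 0 ∧ ∀ e, x e = Real.pi * q e + t * w e := by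
  classical
  -- a coordinate vector outside of the span
  obtain ⟨j, hj⟩ : ∃ j : Fin 4, (Pi.single j (1 : ℝ) : Fin 4 → ℝ) ∉
      Submodule.span ℝ (Set.range (fun i : Fin 3 => fun e : Fin 4 => (N i e : ℝ))) := by
    by_contra hcon
    push Not at hcon
    have htop : Submodule.span ℝ (Set.range (fun i : Fin 3 => fun e : Fin 4 => (N i e : ℝ))) = ⊤ := by
      rw [eq_top_iff, ← (Pi.basisFun ℝ (Fin 4)).span_eq, Submodule.span_le]
      rintro _ ⟨j, rfl⟩
      rw [Pi.basisFun_apply]
      exact hcon j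
    have h1 := finrank_span_le_card (R := ℝ) (Set.range (fun i : Fin 3 => fun e : Fin 4 => (N i e : ℝ)))
    rw [htop, finrank_top, Module.finrank_fin_fun] at h1
    have h2 : (Set.range (fun i : Fin 3 => fun e : Fin 4 => (N i e : ℝ))).toFinset.card ≤ 3 := by
      rw [Set.toFinset_range]
      exact Finset.card_image_le.trans (by simp)
    omega
  -- the integer matrix
  let M : Matrix (Fin 4) (Fin 4) ℤ := Matrix.of (Fin.snoc (α := fun _ => Fin 4 → ℤ)
    (fun i : Fin 3 => fun e => (N i e : ℤ)) (Pi.single j 1))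
  have hM : ∀ i : Fin 3, ∀ e, M (Fin.castSucc i) e = (N i e : ℤ) := by
    intro i e
    simp [M]
  have hL : ∀ e, M (Fin.last 3) e = (Pi.single j 1 : Fin 4 → ℤ) e := by
    intro e
    have h0 : M (Fin.last 3) = (Pi.single j 1 : Fin 4 → ℤ) :=
      Fin.snoc_last (α := fun _ => Fin 4 → ℤ) (Pi.single j 1) (fun i : Fin 3 => fun e => (N i e : ℤ))
    rw [h0]
  have hrows : LinearIndependent ℝ (M.map (Int.cast : ℤ → ℝ)).row := by
    have h3 : (M.map (Int.cast : ℤ → ℝ)).row =
        (Fin.snoc (α := fun _ => Fin 4 → ℝ) (fun i : Fin 3 => fun e => (N i e : ℝ))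
          (Pi.single j 1)) := by
      funext i
      refine Fin.lastCases ?_ (fun i => ?_) i
      · rw [Fin.snoc_last]
        funext e
        rw [Matrix.row_apply, Matrix.map_apply, hL]
        simp only [Pi.single_apply]
        split <;> simp
      · rw [Fin.snoc_castSucc]
        funext e
        rw [Matrix.row_apply, Matrix.map_apply, hM]
        simp
    rw [h3]
    exact linearIndependent_finSnoc.2 ⟨hN, hj⟩
  have hdR : (M.map (Int.cast : ℤ → ℝ)).det ≠ 0 := by
    have := Matrix.linearIndependent_rows_iff_isUnit.1 hrows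
    exact ((Matrix.isUnit_iff_isUnit_det _).1 this).ne_zero
  have hdet : ((M.det : ℤ) : ℝ) = (M.map (Int.cast : ℤ → ℝ)).det := by
    exact (Int.castRingHom ℝ).map_det M
  have hd : (M.det : ℝ) ≠ 0 := by rw [hdet]; exact hdR
  have hdZ : M.det ≠ 0 := by
    intro h
    apply hd
    rw [h]
    simp
  set A := M.adjugate with hA
  have hAM : ∀ e f, ∑ i, A e i * M i f = if e = f then M.det else 0 := by
    intro e f
    have := congrFun (congrFun (Matrix.adjugate_mul M) e) f
    rw [Matrix.mul_apply] at this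
    rw [this, Matrix.smul_apply, Matrix.one_apply]
    split <;> simp
  have hMA : ∑ e, M (Fin.last 3) e * A e (Fin.last 3) = M.det := by
    have := congrFun (congrFun (Matrix.mul_adjugate M) (Fin.last 3)) (Fin.last 3)
    rw [Matrix.mul_apply] at this
    rw [this, Matrix.smul_apply, Matrix.one_apply_eq]
    simp
  have hx : ∀ e, (M.det : ℝ) * x e = ∑ i, (A e i : ℝ) * ∑ f, (M i f : ℝ) * x f := by
    intro e
    have h4 : ∀ f, ∑ i, (A e i : ℝ) * (M i f : ℝ) = if e = f then (M.det : ℝ) else 0 := by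
      intro f
      have := hAM e f
      have h5 : ((∑ i, A e i * M i f : ℤ) : ℝ) = ((if e = f then M.det else 0 : ℤ) : ℝ) := by
        rw [this]
      rw [Int.cast_sum] at h5
      simp only [Int.cast_mul] at h5
      rw [h5]
      split <;> simp
    calc (M.det : ℝ) * x e = ∑ f, (if e = f then (M.det : ℝ) else 0) * x f := by
          simp
      _ = ∑ f, (∑ i, (A e i : ℝ) * (M i f : ℝ)) * x f := by
          simp only [h4]
      _ = ∑ i, (A e i : ℝ) * ∑ f, (M i f : ℝ) * x f := by
          simp only [Finset.sum_mul, Finset.mul_sum]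
          rw [Finset.sum_comm]
          simp only [mul_assoc]
  have hMx : ∀ i : Fin 3, ∑ f, (M (Fin.castSucc i) f : ℝ) * x f = 2 * Real.pi := by
    intro i
    rw [← ha i]
    refine Finset.sum_congr rfl fun f _ => ?_
    rw [hM]
    simp
  refine ⟨fun e => 2 * (∑ i : Fin 3, (A e (Fin.castSucc i) : ℚ)) / (M.det : ℚ),
    fun e => A e (Fin.last 3), (∑ f, (M (Fin.last 3) f : ℝ) * x f) / M.det, ?_, ?_⟩
  · intro h
    apply hdZ
    rw [← hMA]
    refine Finset.sum_eq_zero fun e _ => ?_
    have := congrFun h e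
    simp only [Pi.zero_apply] at this
    rw [this, mul_zero]
  · intro e
    have h6 := hx e
    rw [Fin.sum_univ_castSucc] at h6
    simp only [hMx] at h6
    rw [← Finset.sum_mul] at h6
    have h7 : x e = ((∑ i : Fin 3, (A e (Fin.castSucc i) : ℝ)) * (2 * Real.pi) +
        (A e (Fin.last 3) : ℝ) * ∑ f, (M (Fin.last 3) f : ℝ) * x f) / M.det := by
      rw [← h6]
      field_simp
    rw [h7]
    generalize (∑ f, (M (Fin.last 3) f : ℝ) * x f) = Y
    generalize hD : M.det = D at hd
    rw [Rat.cast_div, Rat.cast_mul, Rat.cast_sum]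
    simp only [Rat.cast_intCast, Rat.cast_ofNat]
    generalize (∑ i : Fin 3, (A e (Fin.castSucc i) : ℝ)) = Z
    field_simp

end Pool.Agent.TetMir
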