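import Pool.Agent.TetMir57.Defs

/-! # Mirror tetrahedra with three independent types: the real argument (helper34) -/

set_option autoImplicit false

namespace Pool.Agent.TetMir

open Real

theorem int_cos (c : ℝ) (b : ℤ) (hb : b ≠ 0) (t : ℝ) :
    ∫ s in t..(t + 2 * π), Real.cos (c + s * b) = 0 := by
  have hb' : (b : ℝ) ≠ 0 := by exact_mod_cast hb
  have hd : ∀ s ∈ Set.uIcc t (t + 2 * π),
      HasDerivAt (fun s : ℝ => Real.sin (c + s * b) / b) (Real.cos (c + s * b)) s := by
    intro s _
    have h1 : HasDerivAt (fun s : ℝ => c + s * (b : ℝ)) (b : ℝ) s := by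
      simpa using ((hasDerivAt_id s).mul_const (b : ℝ)).const_add c
    have h2 := (h1.sin).div_const (b : ℝ)
    rwa [mul_div_assoc, div_self hb', mul_one] at h2
  rw [intervalIntegral.integral_eq_sub_of_hasDerivAt hd]
  · have : c + (t + 2 * π) * (b : ℝ) = c + t * b + b * (2 * π) := by ring
    rw [this, Real.sin_add_int_mul_two_pi]
    ring
  · apply Continuous.intervalIntegrable
    fun_prop

theorem half_three (c0 c1 c2 c3 : ℝ) (a b g d : ℤ) (t : ℝ)
    (h : ∀ s : ℝ, 2 * (Real.cos (c3 + s * d) + Real.cos (c0 + s * a) * Real.cos (c2 + s * g)) ^ 2 +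
      (Real.cos (c1 + s * b) + Real.cos (2 * (c2 + s * g))) * Real.sin (c0 + s * a) ^ 2 = 0)
    (h3 : Real.cos (c1 + t * b) + Real.cos (2 * (c2 + t * g)) < 0)
    (h0 : Real.sin (c0 + t * a) ≠ 0) (h1 : -1 < Real.cos (c1 + t * b)) :
    g = 0 ∧ (b = 0 ∨ Real.cos c2 = 0) := by
  -- the first bracket is nonpositive everywhere
  have hu : ∀ s : ℝ, Real.cos (c1 + s * b) + Real.cos (2 * (c2 + s * g)) ≤ 0 := by
    intro s0
    by_contra hpos
    push Not at hpos
    have hs : ∀ s : ℝ, 0 < Real.cos (c1 + s * b) + Real.cos (2 * (c2 + s * g)) →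
        Real.sin (c0 + s * a) = 0 := by
      intro s hs
      have h' := h s
      have h2 : (Real.cos (c1 + s * b) + Real.cos (2 * (c2 + s * g))) *
          Real.sin (c0 + s * a) ^ 2 ≤ 0 := by
        nlinarith [sq_nonneg (Real.cos (c3 + s * d) +
          Real.cos (c0 + s * a) * Real.cos (c2 + s * g))]
      have h3' : Real.sin (c0 + s * a) ^ 2 ≤ 0 := by
        by_contra h4
        push Not at h4
        exact absurd h2 (not_le.mpr (mul_pos hs h4))
      have h5 : Real.sin (c0 + s * a) ^ 2 = 0 := le_antisymm h3' (sq_nonneg _)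
      exact pow_eq_zero_iff (two_ne_zero) |>.mp h5
    by_cases ha : a = 0
    · apply h0
      have := hs s0 hpos
      simpa [ha] using this
    · have ha' : (a : ℝ) ≠ 0 := by exact_mod_cast ha
      have hcont : Continuous (fun s : ℝ =>
          Real.cos (c1 + s * b) + Real.cos (2 * (c2 + s * g))) := by fun_prop
      obtain ⟨ε, hε, hball⟩ := Metric.isOpen_iff.mp (isOpen_lt continuous_const hcont) s0 hpos
      set δ : ℝ := min (ε / 2) (π / (2 * |(a : ℝ)|)) with hδ
      have habs : 0 < |(a : ℝ)| := abs_pos.mpr ha'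
      have hδ0 : 0 < δ := lt_min (by positivity) (by positivity)
      have hδ1 : δ < ε := lt_of_le_of_lt (min_le_left _ _) (by linarith)
      have hδ2 : δ * |(a : ℝ)| < π := by
        have : δ ≤ π / (2 * |(a : ℝ)|) := min_le_right _ _
        calc δ * |(a : ℝ)| ≤ π / (2 * |(a : ℝ)|) * |(a : ℝ)| := by gcongr
          _ = π / 2 := by field_simp
          _ < π := by linarith [Real.pi_pos]
      have e1 : Real.sin (c0 + s0 * a) = 0 := hs s0 hpos
      have e2 : Real.sin (c0 + (s0 + δ) * a) = 0 := by
        apply hs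
        apply hball
        rw [Metric.mem_ball, Real.dist_eq]
        rw [add_sub_cancel_left, abs_of_pos hδ0]
        exact hδ1
      have e3 : c0 + (s0 + δ) * (a : ℝ) = (c0 + s0 * a) + δ * a := by ring
      rw [e3, Real.sin_add, e1, zero_mul, zero_add] at e2
      have hc : Real.cos (c0 + s0 * a) ≠ 0 := by
        intro hc
        have := Real.sin_sq_add_cos_sq (c0 + s0 * a)
        rw [e1, hc] at this
        norm_num at this
      have e4 : Real.sin (δ * a) = 0 := by
        rcases mul_eq_zero.mp e2 with h' | h'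
        · exact absurd h' hc
        · exact h'
      rcases lt_or_gt_of_ne ha' with hn | hp
      · rw [abs_of_neg hn] at hδ2
        have : 0 < Real.sin (-(δ * a)) := Real.sin_pos_of_pos_of_lt_pi
          (by nlinarith) (by linarith)
        rw [Real.sin_neg, e4] at this
        simp at this
      · rw [abs_of_pos hp] at hδ2
        have : 0 < Real.sin (δ * a) := Real.sin_pos_of_pos_of_lt_pi
          (by positivity) (by linarith)
        rw [e4] at this
        exact lt_irrefl _ this
  -- g = 0
  by_cases hg : g = 0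
  · refine ⟨hg, ?_⟩
    by_cases hb : b = 0
    · exact Or.inl hb
    · right
      have hb' : (b : ℝ) ≠ 0 := by exact_mod_cast hb
      have h' := hu (-c1 / b)
      have e1 : c1 + -c1 / (b : ℝ) * b = 0 := by field_simp; ring
      rw [e1, Real.cos_zero, hg, Int.cast_zero, mul_zero, add_zero, Real.cos_two_mul] at h'
      have : Real.cos c2 ^ 2 = 0 := le_antisymm (by linarith) (sq_nonneg _)
      exact pow_eq_zero_iff (two_ne_zero) |>.mp this
  · exfalso
    have hg' : (g : ℝ) ≠ 0 := by exact_mod_cast hg
    by_cases hb : b = 0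
    · have h' := hu (-c2 / g)
      have e1 : c2 + -c2 / (g : ℝ) * g = 0 := by field_simp; ring
      rw [e1, mul_zero, Real.cos_zero, hb, Int.cast_zero, mul_zero, add_zero] at h'
      rw [hb, Int.cast_zero, mul_zero, add_zero] at h1
      linarith
    · have hI : ∫ s in t..(t + 2 * π),
          (Real.cos (c1 + s * b) + Real.cos (2 * (c2 + s * g))) = 0 := by
        rw [intervalIntegral.integral_add]
        · rw [int_cos c1 b hb t, zero_add]
          have : (fun s : ℝ => Real.cos (2 * (c2 + s * g))) =
              fun s : ℝ => Real.cos (2 * c2 + s * ((2 * g : ℤ) : ℝ)) := by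
            funext s
            push_cast
            ring_nf
          rw [this]
          exact int_cos (2 * c2) (2 * g) (by omega) t
        · apply Continuous.intervalIntegrable; fun_prop
        · apply Continuous.intervalIntegrable; fun_prop
      have hlt : ∫ s in t..(t + 2 * π),
          (Real.cos (c1 + s * b) + Real.cos (2 * (c2 + s * g))) <
          ∫ _s in t..(t + 2 * π), (0 : ℝ) := by
        apply intervalIntegral.integral_lt_integral_of_continuousOn_of_le_of_exists_lt
        · linarith [Real.pi_pos]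
        · apply Continuous.continuousOn; fun_prop
        · exact continuousOn_const
        · intro x _
          exact hu x
        · exact ⟨t, ⟨le_rfl, by linarith [Real.pi_pos]⟩, h3⟩
      rw [hI] at hlt
      simp at hlt

theorem real_three (q : Fin 4 → ℚ) (w : Fin 4 → ℤ) (t : ℝ) (hw : w ≠ 0)
    (h1 : ∀ s : ℝ, f1 (fun e => Real.pi * q e + s * w e) = 0)
    (h2 : ∀ s : ℝ, f2 (fun e => Real.pi * q e + s * w e) = 0)
    (h3 : Real.cos (Real.pi * q 1 + t * w 1) + Real.cos (2 * (Real.pi * q 2 + t * w 2)) < 0)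
    (h4 : Real.cos (Real.pi * q 1 + t * w 1) + Real.cos (2 * (Real.pi * q 3 + t * w 3)) < 0)
    (h5 : ∀ e, 0 < Real.pi * q e + t * w e ∧ Real.pi * q e + t * w e < Real.pi) : False := by
  have hs0 : 0 < Real.sin (Real.pi * q 0 + t * w 0) :=
    Real.sin_pos_of_pos_of_lt_pi (h5 0).1 (h5 0).2
  have hc1 : -1 < Real.cos (Real.pi * q 1 + t * w 1) := by
    have := Real.cos_lt_cos_of_nonneg_of_le_pi (h5 1).1.le (le_refl Real.pi) (h5 1).2
    rwa [Real.cos_pi] at this
  obtain ⟨hg, hbg⟩ := half_three (Real.pi * q 0) (Real.pi * q 1) (Real.pi * q 2) (Real.pi * q 3)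
    (w 0) (w 1) (w 2) (w 3) t (fun s => by have := h1 s; simpa [f1] using this) h3 hs0.ne' hc1
  obtain ⟨hd, hbd⟩ := half_three (Real.pi * q 0) (Real.pi * q 1) (Real.pi * q 3) (Real.pi * q 2)
    (w 0) (w 1) (w 3) (w 2) t (fun s => by have := h2 s; simpa [f2] using this) h4 hs0.ne' hc1
  have key : Real.cos (Real.pi * q 2) = 0 ∧ Real.cos (Real.pi * q 3) = 0 := by
    by_cases hb : w 1 = 0
    · have ha : w 0 ≠ 0 := by
        intro ha
        apply hw
        funext e
        fin_cases e
        · exact ha
        · exact hb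
        · exact hg
        · exact hd
      have ha' : (w 0 : ℝ) ≠ 0 := by exact_mod_cast ha
      have k1 := h1 (-(Real.pi * q 0) / w 0)
      have k2 := h1 ((Real.pi - Real.pi * q 0) / w 0)
      have e1 : Real.pi * q 0 + -(Real.pi * q 0) / (w 0 : ℝ) * w 0 = 0 := by
        field_simp; ring
      have e2 : Real.pi * q 0 + (Real.pi - Real.pi * q 0) / (w 0 : ℝ) * w 0 = Real.pi := by
        field_simp; ring
      simp only [f1] at k1 k2
      rw [e1, Real.cos_zero, Real.sin_zero, hg, hd] at k1
      rw [e2, Real.cos_pi, Real.sin_pi, hg, hd] at k2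
      simp only [Int.cast_zero, mul_zero, add_zero, one_mul] at k1 k2
      have k1' : (Real.cos (Real.pi * q 3) + Real.cos (Real.pi * q 2)) ^ 2 = 0 := by
        nlinarith
      have k2' : (Real.cos (Real.pi * q 3) - Real.cos (Real.pi * q 2)) ^ 2 = 0 := by
        nlinarith
      have k1'' := pow_eq_zero_iff (two_ne_zero) |>.mp k1'
      have k2'' := pow_eq_zero_iff (two_ne_zero) |>.mp k2'
      constructor <;> linarith
    · exact ⟨hbg.resolve_left hb, hbd.resolve_left hb⟩
  have k := h1 t
  simp only [f1] at k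
  rw [hg, hd] at k
  rw [hg] at h3
  simp only [Int.cast_zero, mul_zero, add_zero] at k h3
  rw [key.1, key.2] at k
  have hpos : 0 < Real.sin (Real.pi * q 0 + t * w 0) ^ 2 := by positivity
  nlinarith [mul_neg_of_neg_of_pos h3 hpos]

end Pool.Agent.TetMir
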