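import Pool.Agent.TetMir57.Defs
import Pool.Agent.TetDim.Cont3Of
import Pool.Agent.TetDim.Pointwise

/-!
# Two relations on a line of edge lengths: continuation

If two relations `∑ n1 e * Th e = 4 π = ∑ n2 e * Th e` hold at one point of the line
`(1 - s) n1 + s n2` and their sines vanish at all its good points, then all points of the line which
satisfy the triangle inequalities are edge lengths of tetrahedra for which they hold.
-/

set_option autoImplicit false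

namespace Pool.Agent.TetMir

open Pool.Agent.TetRel Pool.Agent.TetDim Set Filter Topology

/-- the line through two integer vectors -/
def lnK (n1 n2 : Fin 6 → ℕ) (s : ℝ) (e : Fin 6) : ℝ := (1 - s) * (n1 e : ℝ) + s * (n2 e : ℝ)

theorem lnK_cont (n1 n2 : Fin 6 → ℕ) (e : Fin 6) : Continuous fun s : ℝ => lnK n1 n2 s e := by
  unfold lnK
  fun_prop

/-- `4 π` along the whole line -/
theorem lnK_sum (n1 n2 : Fin 6 → ℕ) (s : ℝ) (t : Fin 6 → ℝ)
    (h1 : ∑ e, (n1 e : ℝ) * t e = 4 * Real.pi) (h2 : ∑ e, (n2 e : ℝ) * t e = 4 * Real.pi) :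
    ∑ e, lnK n1 n2 s e * t e = 4 * Real.pi := by
  have h3 : ∑ e, lnK n1 n2 s e * t e =
      (1 - s) * ∑ e, (n1 e : ℝ) * t e + s * ∑ e, (n2 e : ℝ) * t e := by
    rw [Finset.mul_sum, Finset.mul_sum, ← Finset.sum_add_distrib]
    exact Finset.sum_congr rfl fun e _ => by unfold lnK; ring
  rw [h3, h1, h2]
  ring

/-- a multiple of `π` at distance less than `π` from `4 π` -/
theorem eq_four_pi {x : ℝ} (hs : Real.sin x = 0) (h : |x - 4 * Real.pi| < Real.pi) :
    x = 4 * Real.pi := by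
  have hpi := Real.pi_pos
  rw [Real.sin_eq_zero_iff] at hs
  obtain ⟨m, hm⟩ := hs
  rw [← hm] at h ⊢
  have h5 : |((m - 4 : ℤ) : ℝ)| * Real.pi < 1 * Real.pi := by
    rw [one_mul, Int.cast_sub, Int.cast_ofNat, ← abs_of_pos hpi, ← abs_mul, abs_of_pos hpi,
      sub_mul]
    exact h
  have h6 : |((m - 4 : ℤ) : ℝ)| < 1 := lt_of_mul_lt_mul_right h5 hpi.le
  have h7 : |m - 4| < 1 := by exact_mod_cast h6
  have h8 : m = 4 := by
    rw [Int.abs_lt_one_iff] at h7
    omega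
  rw [h8]
  norm_num

/-- The continuation argument, with the needed facts about tetrahedra as hypotheses. -/
theorem line_core
    (hGP : ∀ l : Fin 6 → ℝ, Tri l → (∀ i, 0 < l i) ∧ ∀ c, 0 < F l c)
    (hFM : ∀ (l : Fin 6 → ℝ) i, F l (TetRel.ec i) * F l (TetRel.ed i) = N l i ^ 2 + 4 * l i ^ 2 * P l)
    (hS : ∀ l : Fin 6 → ℝ, Good l → Star (Th l))
    (hI : ∀ l : Fin 6 → ℝ, Good l → (∀ k, Real.pi * D l k < ∑ e, l e * Th l e) ∧
      ∀ q, ∑ e, l e * Th l e < Real.pi * S l q)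
    (n1 n2 : Fin 6 → ℕ) (s0 : ℝ) (h0 : Good (lnK n1 n2 s0))
    (h1 : ∑ e, (n1 e : ℝ) * Th (lnK n1 n2 s0) e = 4 * Real.pi)
    (h2 : ∑ e, (n2 e : ℝ) * Th (lnK n1 n2 s0) e = 4 * Real.pi)
    (h3 : ∀ s : ℝ, Good (lnK n1 n2 s) →
      Real.sin (∑ e, (n1 e : ℝ) * Th (lnK n1 n2 s) e) = 0 ∧
      Real.sin (∑ e, (n2 e : ℝ) * Th (lnK n1 n2 s) e) = 0) :
    ∀ s, Tri (lnK n1 n2 s) → Good (lnK n1 n2 s) ∧
      ∑ e, (n1 e : ℝ) * Th (lnK n1 n2 s) e = 4 * Real.pi ∧
      ∑ e, (n2 e : ℝ) * Th (lnK n1 n2 s) e = 4 * Real.pi := by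
  have hpi := Real.pi_pos
  have hJ : ∀ e, Continuous fun s : ℝ => lnK n1 n2 s e := lnK_cont n1 n2
  have hTri : IsOpen {s | Tri (lnK n1 n2 s)} := by
    have : {s | Tri (lnK n1 n2 s)} = ⋂ q, ⋂ k, {s | D (lnK n1 n2 s) k < S (lnK n1 n2 s) q} := by
      ext s
      simp [Tri]
    rw [this]
    exact isOpen_iInter_of_finite fun q => isOpen_iInter_of_finite fun k =>
      isOpen_lt (D_cont hJ k) (S_cont hJ q)
  have hlin : ∀ (a b : ℝ), a + b = 1 → ∀ (c c' : ℝ) e, lnK n1 n2 (a • c + b • c') e =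
      a * lnK n1 n2 c e + b * lnK n1 n2 c' e := by
    intro a b hab c c' e
    have hb : b = 1 - a := by linarith
    simp only [lnK, smul_eq_mul, hb]
    ring
  have hconv : Convex ℝ {s | Tri (lnK n1 n2 s)} := by
    intro c hc c' hc' a b ha hb hab q k
    have hl := hlin a b hab c c'
    have hD : D (lnK n1 n2 (a • c + b • c')) k = a * D (lnK n1 n2 c) k + b * D (lnK n1 n2 c') k := by
      fin_cases k <;> simp only [D, hl] <;> simp <;> ring
    have hSS : S (lnK n1 n2 (a • c + b • c')) q = a * S (lnK n1 n2 c) q + b * S (lnK n1 n2 c') q := by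
      fin_cases q <;> simp only [S, hl] <;> simp <;> ring
    rw [hD, hSS]
    have h3 := hc q k
    have h4 := hc' q k
    rcases ha.eq_or_lt with h | h
    · rw [← h] at hab ⊢
      rw [zero_add] at hab
      rw [hab]
      linarith
    · have := mul_lt_mul_of_pos_left h3 h
      have := mul_le_mul_of_nonneg_left h4.le hb
      linarith
  let V : Set ℝ := {s | Good (lnK n1 n2 s) ∧
    ∑ e, (n1 e : ℝ) * Th (lnK n1 n2 s) e = 4 * Real.pi ∧
    ∑ e, (n2 e : ℝ) * Th (lnK n1 n2 s) e = 4 * Real.pi}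
  have hThc : ∀ c, Tri (lnK n1 n2 c) → ∀ i, ContinuousAt (fun c => Th (lnK n1 n2 c) i) c :=
    fun c hc i => Th_contAt hJ (hGP _ hc).2 i
  have hsumc : ∀ c, Tri (lnK n1 n2 c) → ∀ n : Fin 6 → ℕ,
      ContinuousAt (fun c => ∑ e, (n e : ℝ) * Th (lnK n1 n2 c) e) c := by
    intro c hc n
    refine tendsto_finsetSum _ fun e _ => ?_
    exact (hThc c hc e).const_mul _
  have hopen : IsOpen V := by
    rw [isOpen_iff_mem_nhds]
    rintro c ⟨hG, hs1, hs2⟩
    have e1 : ∀ᶠ x in 𝓝 c, Tri (lnK n1 n2 x) := hTri.mem_nhds hG.1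
    have e2 : ∀ᶠ x in 𝓝 c, 0 < P (lnK n1 n2 x) := (P_cont hJ).continuousAt.eventually_const_lt hG.2
    have e3 : ∀ n : Fin 6 → ℕ, ∑ e, (n e : ℝ) * Th (lnK n1 n2 c) e = 4 * Real.pi →
        ∀ᶠ x in 𝓝 c, |∑ e, (n e : ℝ) * Th (lnK n1 n2 x) e - 4 * Real.pi| < Real.pi := by
      intro n hn
      have := (((hsumc c hG.1 n).sub_const (4 * Real.pi)).abs).eventually_lt_const
        (show |∑ e, (n e : ℝ) * Th (lnK n1 n2 c) e - 4 * Real.pi| < Real.pi by
          rw [hn, sub_self, abs_zero]; exact hpi)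
      exact this
    filter_upwards [e1, e2, e3 n1 hs1, e3 n2 hs2] with x hx1 hx2 hx3 hx4
    have h4 := h3 x ⟨hx1, hx2⟩
    exact ⟨⟨hx1, hx2⟩, eq_four_pi h4.1 hx3, eq_four_pi h4.2 hx4⟩
  have hclosed : closure V ∩ {c | Tri (lnK n1 n2 c)} ⊆ V := by
    rintro c ⟨hc, hT⟩
    have hT' : Tri (lnK n1 n2 c) := hT
    obtain ⟨u, hu, hlim⟩ := mem_closure_iff_seq_limit.1 hc
    have hPlim : Tendsto (fun m => P (lnK n1 n2 (u m))) atTop (𝓝 (P (lnK n1 n2 c))) :=
      (P_cont hJ).continuousAt.tendsto.comp hlim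
    have hP0 : 0 ≤ P (lnK n1 n2 c) := ge_of_tendsto' hPlim fun m => (hu m).1.2.le
    have hThlim : ∀ i, Tendsto (fun m => Th (lnK n1 n2 (u m)) i) atTop (𝓝 (Th (lnK n1 n2 c) i)) :=
      fun i => (hThc c hT' i).tendsto.comp hlim
    have hsum : ∀ n : Fin 6 → ℕ, (∀ m, ∑ e, (n e : ℝ) * Th (lnK n1 n2 (u m)) e = 4 * Real.pi) →
        ∑ e, (n e : ℝ) * Th (lnK n1 n2 c) e = 4 * Real.pi := by
      intro n hn
      have h3 : Tendsto (fun m => ∑ e, (n e : ℝ) * Th (lnK n1 n2 (u m)) e) atTop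
          (𝓝 (∑ e, (n e : ℝ) * Th (lnK n1 n2 c) e)) := (hsumc c hT' n).tendsto.comp hlim
      have h4 : (fun m => ∑ e, (n e : ℝ) * Th (lnK n1 n2 (u m)) e) = fun _ => 4 * Real.pi :=
        funext fun m => hn m
      rw [h4] at h3
      exact tendsto_nhds_unique h3 tendsto_const_nhds
    have hsum1 := hsum n1 fun m => (hu m).2.1
    have hsum2 := hsum n2 fun m => (hu m).2.2
    rcases hP0.eq_or_lt with hP | hP
    · exfalso
      have ht0 : ∀ e, Th (lnK n1 n2 c) e = 0 ∨ Th (lnK n1 n2 c) e = Real.pi := by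
        intro e
        have h3 := hFM (lnK n1 n2 c) e
        rw [← hP, mul_zero, add_zero] at h3
        have h4 : 0 < F (lnK n1 n2 c) (TetRel.ec e) * F (lnK n1 n2 c) (TetRel.ed e) :=
          mul_pos ((hGP _ hT').2 _) ((hGP _ hT').2 _)
        unfold Th
        rw [h3] at h4 ⊢
        rw [Real.sqrt_sq_eq_abs]
        have h5 : N (lnK n1 n2 c) e ≠ 0 := by
          intro h
          rw [h] at h4
          norm_num at h4
        rcases lt_or_gt_of_ne h5 with h6 | h6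
        · right
          rw [abs_of_neg h6, div_neg, div_self h5, Real.arccos_neg_one]
        · left
          rw [abs_of_pos h6, div_self h5, Real.arccos_one]
      have hA : ∀ q, Tendsto (fun m => A (Th (lnK n1 n2 (u m))) q) atTop
          (𝓝 (A (Th (lnK n1 n2 c)) q)) := by
        intro q
        exact ((hThlim _).add (hThlim _)).add (hThlim _)
      have hs1 : ∀ q, Real.pi ≤ A (Th (lnK n1 n2 c)) q := fun q =>
        ge_of_tendsto' (hA q) fun m => ((hS _ (hu m).1) q).1.le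
      have hs2 : ∀ q j, A (Th (lnK n1 n2 c)) q ≤ Real.pi + 2 * Th (lnK n1 n2 c) (st q j) := fun q j =>
        le_of_tendsto_of_tendsto' (hA q) (((hThlim _).const_mul 2).const_add Real.pi)
          fun m => (((hS _ (hu m).1) q).2 j).le
      have hI0 := hI _ h0
      rw [lnK_sum n1 n2 s0 _ h1 h2] at hI0
      rcases flat_cases _ ht0 hs1 hs2 with ⟨k, hk⟩ | ⟨q, hq⟩
      · have h3 := hk (lnK n1 n2 s0)
        rw [lnK_sum n1 n2 s0 _ hsum1 hsum2] at h3
        have h4 := hI0.1 k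
        linarith
      · have h3 := hq (lnK n1 n2 s0) (hGP _ h0.1).1
        rw [lnK_sum n1 n2 s0 _ hsum1 hsum2] at h3
        have h4 := hI0.2 q
        linarith
    · exact ⟨⟨hT', hP⟩, hsum1, hsum2⟩
  have hsub := hconv.isPreconnected.subset_of_closure_inter_subset hopen
    ⟨s0, h0.1, h0, h1, h2⟩ hclosed
  intro c hc
  exact hsub hc

theorem cont_line (n1 n2 : Fin 6 → ℕ) (s0 : ℝ)
    (h0 : Good (fun e => (1 - s0) * (n1 e : ℝ) + s0 * (n2 e : ℝ)))
    (h1 : ∑ e, (n1 e : ℝ) * Th (fun e => (1 - s0) * (n1 e : ℝ) + s0 * (n2 e : ℝ)) e = 4 * Real.pi)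
    (h2 : ∑ e, (n2 e : ℝ) * Th (fun e => (1 - s0) * (n1 e : ℝ) + s0 * (n2 e : ℝ)) e = 4 * Real.pi)
    (h3 : ∀ s : ℝ, Good (fun e => (1 - s) * (n1 e : ℝ) + s * (n2 e : ℝ)) →
      Real.sin (∑ e, (n1 e : ℝ) * Th (fun e => (1 - s) * (n1 e : ℝ) + s * (n2 e : ℝ)) e) = 0 ∧
      Real.sin (∑ e, (n2 e : ℝ) * Th (fun e => (1 - s) * (n1 e : ℝ) + s * (n2 e : ℝ)) e) = 0) :
    ∀ s : ℝ, Tri (fun e => (1 - s) * (n1 e : ℝ) + s * (n2 e : ℝ)) →
      Good (fun e => (1 - s) * (n1 e : ℝ) + s * (n2 e : ℝ)) ∧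
      ∑ e, ((1 - s) * (n1 e : ℝ) + s * (n2 e : ℝ)) *
        Th (fun e => (1 - s) * (n1 e : ℝ) + s * (n2 e : ℝ)) e = 4 * Real.pi := by
  intro s hs
  have key := line_core (fun l hl => good_pos hl) F_mul
    (fun l hl => by
      obtain ⟨v, hv, rfl⟩ := realize hl
      have h3 : dih v = Th (len v) := funext (basic v hv).2.2.2.1
      rw [← h3]
      exact star v hv)
    (fun l hl => by
      obtain ⟨v, hv, rfl⟩ := realize hl
      have h3 : dih v = Th (len v) := funext (basic v hv).2.2.2.1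
      rw [← h3]
      exact ineq v hv)
    n1 n2 s0 h0 h1 h2 h3 s hs
  exact ⟨key.1, lnK_sum n1 n2 s _ key.2.1 key.2.2⟩

end Pool.Agent.TetMir
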