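import Pool.Agent.TetMir57.Defs
import Pool.Agent.TetDim.PolyRel

/-! # Relations between the dihedral angles are polynomial equations over the rational numbers -/

set_option autoImplicit false

namespace Pool.Agent.TetMir

open Pool.Agent.TetRel Pool.Agent.TetDim

/-- the numerator of the cosine as a polynomial -/
noncomputable def numQ (a b c d e g : MvPolynomial (Fin 6) ℚ) : MvPolynomial (Fin 6) ℚ :=
  2 * a ^ 2 * (b ^ 2 + d ^ 2 - g ^ 2) - (b ^ 2 + a ^ 2 - c ^ 2) * (d ^ 2 + a ^ 2 - e ^ 2)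

theorem aeval_numQ (l : Fin 6 → ℝ) (a b c d e g : Fin 6) :
    MvPolynomial.aeval l (numQ (MvPolynomial.X a) (MvPolynomial.X b) (MvPolynomial.X c)
      (MvPolynomial.X d) (MvPolynomial.X e) (MvPolynomial.X g)) =
      num (l a) (l b) (l c) (l d) (l e) (l g) := by
  simp [numQ, num]

theorem exists_NQ (i : Fin 6) : ∃ q : MvPolynomial (Fin 6) ℚ, ∀ l : Fin 6 → ℝ,
    MvPolynomial.aeval l q = N l i := by
  fin_cases i
  · exact ⟨_, fun l => aeval_numQ l 0 1 3 2 4 5⟩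
  · exact ⟨_, fun l => aeval_numQ l 1 0 3 2 5 4⟩
  · exact ⟨_, fun l => aeval_numQ l 2 0 4 1 5 3⟩
  · exact ⟨_, fun l => aeval_numQ l 3 0 1 4 5 2⟩
  · exact ⟨_, fun l => aeval_numQ l 4 0 2 3 5 1⟩
  · exact ⟨_, fun l => aeval_numQ l 5 1 2 3 4 0⟩

open MvPolynomial in
theorem exists_PQ : ∃ q : MvPolynomial (Fin 6) ℚ, ∀ l : Fin 6 → ℝ,
    MvPolynomial.aeval l q = P l := by
  refine ⟨X 0 ^ 2 * X 5 ^ 2 * (-X 0 ^ 2 - X 5 ^ 2 + X 1 ^ 2 + X 4 ^ 2 + X 2 ^ 2 + X 3 ^ 2) +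
    X 1 ^ 2 * X 4 ^ 2 * (-X 1 ^ 2 - X 4 ^ 2 + X 0 ^ 2 + X 5 ^ 2 + X 2 ^ 2 + X 3 ^ 2) +
    X 2 ^ 2 * X 3 ^ 2 * (-X 2 ^ 2 - X 3 ^ 2 + X 0 ^ 2 + X 5 ^ 2 + X 1 ^ 2 + X 4 ^ 2) -
    X 0 ^ 2 * X 3 ^ 2 * X 1 ^ 2 - X 0 ^ 2 * X 4 ^ 2 * X 2 ^ 2 - X 1 ^ 2 * X 5 ^ 2 * X 2 ^ 2 -
    X 3 ^ 2 * X 5 ^ 2 * X 4 ^ 2, fun l => ?_⟩
  simp [P]

/-- The angle function `θ` is represented by polynomials over the rational numbers. -/
def RepQ (θ : (Fin 6 → ℝ) → ℝ) : Prop :=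
  ∃ A B : MvPolynomial (Fin 6) ℚ, ∀ l : Fin 6 → ℝ, Good l → ∃ ρ : ℝ, 0 < ρ ∧
    MvPolynomial.aeval l A = ρ * Real.cos (θ l) ∧
      2 * √(P l) * MvPolynomial.aeval l B = ρ * Real.sin (θ l)

theorem RepQ.zero : RepQ fun _ => 0 := ⟨1, 0, fun l _ => ⟨1, one_pos, by simp, by simp⟩⟩

theorem RepQ.add {θ : (Fin 6 → ℝ) → ℝ} (h : RepQ θ) (i : Fin 6) :
    RepQ fun l => θ l + Th l i := by
  obtain ⟨A, B, hAB⟩ := h
  obtain ⟨NQ, hN⟩ := exists_NQ i
  obtain ⟨PQ, hP'⟩ := exists_PQ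
  refine ⟨A * NQ - 4 * PQ * B * MvPolynomial.X i, A * MvPolynomial.X i + B * NQ, fun l hl => ?_⟩
  obtain ⟨ρ, hρ, h1, h2⟩ := hAB l hl
  obtain ⟨_, hc, hs⟩ := Th_facts hl i
  have hF := (good_pos hl.1).2
  have hr : 0 < √(F l (TetRel.ec i) * F l (TetRel.ed i)) :=
    Real.sqrt_pos.2 (mul_pos (hF _) (hF _))
  set r := √(F l (TetRel.ec i) * F l (TetRel.ed i)) with hrdef
  have hc' : N l i = r * Real.cos (Th l i) := by
    rw [hc]
    field_simp
  have hs' : 2 * l i * √(P l) = r * Real.sin (Th l i) := by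
    rw [hs]
    field_simp
  have hP : √(P l) * √(P l) = P l := Real.mul_self_sqrt hl.2.le
  set A' := MvPolynomial.aeval l A with hA'
  set B' := MvPolynomial.aeval l B with hB'
  have eA : MvPolynomial.aeval l (A * NQ - 4 * PQ * B * MvPolynomial.X i) =
      A' * N l i - 4 * P l * B' * l i := by
    rw [map_sub, map_mul, map_mul, map_mul, map_mul, hN, hP', MvPolynomial.aeval_X, map_ofNat]
  have eB : MvPolynomial.aeval l (A * MvPolynomial.X i + B * NQ) = A' * l i + B' * N l i := by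
    rw [map_add, map_mul, map_mul, hN, MvPolynomial.aeval_X]
  refine ⟨ρ * r, mul_pos hρ hr, ?_, ?_⟩
  · rw [eA, Real.cos_add]
    calc A' * N l i - 4 * P l * B' * l i
        = A' * N l i - (2 * √(P l) * B') * (2 * l i * √(P l)) := by
          linear_combination (-4 * B' * l i) * hP.symm
      _ = ρ * r * (Real.cos (θ l) * Real.cos (Th l i) - Real.sin (θ l) * Real.sin (Th l i)) := by
          rw [h2, hs', h1, hc']
          ring
  · rw [eB, Real.sin_add]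
    calc 2 * √(P l) * (A' * l i + B' * N l i)
        = A' * (2 * l i * √(P l)) + (2 * √(P l) * B') * N l i := by ring
      _ = ρ * r * (Real.sin (θ l) * Real.cos (Th l i) + Real.cos (θ l) * Real.sin (Th l i)) := by
          rw [h2, hs', h1, hc']
          ring

theorem RepQ.add_nat {θ : (Fin 6 → ℝ) → ℝ} (h : RepQ θ) (i : Fin 6) :
    ∀ m : ℕ, RepQ fun l => θ l + m * Th l i
  | 0 => by simpa using h
  | m + 1 => by
    have := (RepQ.add_nat h i m).add i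
    have e : (fun l => θ l + ((m + 1 : ℕ) : ℝ) * Th l i) =
        fun l => θ l + (m : ℝ) * Th l i + Th l i := by
      funext l
      push_cast
      ring
    rw [e]
    exact this

theorem poly_relQ (n : Fin 6 → ℕ) : ∃ B : MvPolynomial (Fin 6) ℚ, ∀ l : Fin 6 → ℝ, Good l →
    (MvPolynomial.aeval l B = 0 ↔ Real.sin (∑ e, (n e : ℝ) * Th l e) = 0) := by
  have h := (((((RepQ.zero.add_nat 0 (n 0)).add_nat 1 (n 1)).add_nat 2 (n 2)).add_nat 3
    (n 3)).add_nat 4 (n 4)).add_nat 5 (n 5)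
  obtain ⟨A, B, hAB⟩ := h
  refine ⟨B, fun l hl => ?_⟩
  obtain ⟨ρ, hρ, _, h2⟩ := hAB l hl
  have hw : 0 < 2 * √(P l) := mul_pos two_pos (Real.sqrt_pos.2 hl.2)
  have he : ∑ e, (n e : ℝ) * Th l e = 0 + n 0 * Th l 0 + n 1 * Th l 1 + n 2 * Th l 2 +
      n 3 * Th l 3 + n 4 * Th l 4 + n 5 * Th l 5 := by
    rw [Fin.sum_univ_six, zero_add]
  rw [he]
  constructor
  · intro h0
    rw [h0, mul_zero] at h2
    rcases mul_eq_zero.1 h2.symm with h3 | h3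
    · exact absurd h3 hρ.ne'
    · exact h3
  · intro h0
    rw [h0, mul_zero] at h2
    rcases mul_eq_zero.1 h2 with h3 | h3
    · exact absurd h3 hw.ne'
    · exact h3

end Pool.Agent.TetMir
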