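import Pool.Agent.TetMir57.Defs
import Pool.Agent.TetRel.Main
import Pool.Agent.TetDim.BasicG

/-! # The symmetrised cone theorem for tetrahedra with a mirror (helper81) -/

set_option autoImplicit false

namespace Pool.Agent.TetMir

open Pool.Agent.TetRel Pool.Agent.TetDim

/-- The dihedral angles at edges exchanged by the mirror are equal. -/
theorem dih_mir (v : Fin 4 → E3) (hv : AffineIndependent ℝ v) (hm : Mir (len v)) :
    dih v 1 = dih v 3 ∧ dih v 2 = dih v 4 := by
  have hb := (basic v hv).2.2.2.1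
  obtain ⟨h1, h2⟩ := hm
  have F01 : F (len v) 0 = F (len v) 1 := by
    show heron (len v 3) (len v 4) (len v 5) = heron (len v 1) (len v 2) (len v 5)
    rw [← h1, ← h2]
  constructor
  · rw [hb, hb]
    unfold Th
    have e1 : N (len v) 1 = N (len v) 3 := by
      show num (len v 1) (len v 0) (len v 3) (len v 2) (len v 5) (len v 4) =
        num (len v 3) (len v 0) (len v 1) (len v 4) (len v 5) (len v 2)
      rw [← h1, ← h2]
    have e2 : F (len v) (ec 1) * F (len v) (ed 1) = F (len v) (ec 3) * F (len v) (ed 3) := by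
      show F (len v) 1 * F (len v) 3 = F (len v) 0 * F (len v) 3
      rw [F01]
    rw [e1, e2]
  · rw [hb, hb]
    unfold Th
    have e1 : N (len v) 2 = N (len v) 4 := by
      show num (len v 2) (len v 0) (len v 4) (len v 1) (len v 5) (len v 3) =
        num (len v 4) (len v 0) (len v 2) (len v 3) (len v 5) (len v 1)
      rw [← h1, ← h2]
    have e2 : F (len v) (ec 2) * F (len v) (ed 2) = F (len v) (ec 4) * F (len v) (ed 4) := by
      show F (len v) 1 * F (len v) 2 = F (len v) 0 * F (len v) 2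
      rw [F01]
    rw [e1, e2]

theorem sym_cone (v : Fin 4 → E3) (hv : AffineIndependent ℝ v) (hT : Tiles v) (hm : Mir (len v)) :
    ∃ (m : ℕ) (N : Fin m → Fin 4 → ℕ) (w : Fin m → ℝ),
      LinearIndependent ℝ (fun i : Fin m => fun e : Fin 4 => (N i e : ℝ)) ∧
      (∀ i, ∑ e, (N i e : ℝ) * ang v e = 2 * Real.pi) ∧ (∀ i, 0 < w i) ∧
      ∀ e, lens v e = ∑ i, w i * (N i e : ℝ) := by
  classical
  obtain ⟨k, n, c, hk, -, hn, hc, hl⟩ := cone v hv hT
  obtain ⟨d13, d24⟩ := dih_mir v hv hm
  obtain ⟨m13, m24⟩ := hm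
  let M : Fin k → Fin 4 → ℕ := fun i => ![n i 0, n i 5, n i 1 + n i 3, n i 2 + n i 4]
  have hM : ∀ i, ∑ e, (M i e : ℝ) * ang v e = 2 * Real.pi := by
    intro i
    rw [← hn i, Fin.sum_univ_four, Fin.sum_univ_six]
    show (n i 0 : ℝ) * dih v 0 + (n i 5 : ℝ) * dih v 5 + ((n i 1 + n i 3 : ℕ) : ℝ) * dih v 1 +
      ((n i 2 + n i 4 : ℕ) : ℝ) * dih v 2 = _
    rw [← d13, ← d24]
    push_cast
    ring
  have hlM : ∀ e, lens v e = ∑ i, c i * (M i e : ℝ) := by
    intro e
    fin_cases e
    · exact hl 0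
    · exact hl 5
    · show 2 * len v 1 = ∑ i, c i * ((n i 1 + n i 3 : ℕ) : ℝ)
      have : 2 * len v 1 = len v 1 + len v 3 := by rw [← m13]; ring
      rw [this, hl 1, hl 3, ← Finset.sum_add_distrib]
      exact Finset.sum_congr rfl fun i _ => by push_cast; ring
    · show 2 * len v 2 = ∑ i, c i * ((n i 2 + n i 4 : ℕ) : ℝ)
      have : 2 * len v 2 = len v 2 + len v 4 := by rw [← m24]; ring
      rw [this, hl 2, hl 4, ← Finset.sum_add_distrib]
      exact Finset.sum_congr rfl fun i _ => by push_cast; ring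
  set C := ∑ i, c i with hC
  have hCpos : 0 < C := by
    have : Nonempty (Fin k) := ⟨⟨0, by omega⟩⟩
    exact Finset.sum_pos (fun i _ => hc i) Finset.univ_nonempty
  have hmem : (∑ i, (c i / C) • (fun e : Fin 4 => (M i e : ℝ))) ∈
      convexHull ℝ (Set.range fun i : Fin k => fun e : Fin 4 => (M i e : ℝ)) := by
    refine (convex_convexHull ℝ _).sum_mem (fun i _ => (div_pos (hc i) hCpos).le) ?_
      (fun i _ => subset_convexHull ℝ _ (Set.mem_range_self i))
    rw [← Finset.sum_div, ← hC, div_self hCpos.ne']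
  obtain ⟨ι, hι, z, w, hz, haff, hw, hw1, hsum⟩ := eq_pos_convex_span_of_mem_convexHull hmem
  have hz' : ∀ i, ∃ j : Fin k, (fun e => (M j e : ℝ)) = z i := fun i => hz (Set.mem_range_self i)
  choose j hj using hz'
  have hom : ∀ i, ∑ e, z i e * ang v e = 2 * Real.pi := by
    intro i
    rw [← hj i]; exact hM (j i)
  have hpi : (2 * Real.pi) ≠ 0 := by positivity
  have hlin : LinearIndependent ℝ z := by
    rw [Fintype.linearIndependent_iff]
    intro g hg
    have h1 : ∑ i, g i = 0 := by
      have h2 : ∑ e, (∑ i, g i • z i) e * ang v e = 0 := by rw [hg]; simp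
      simp only [Finset.sum_apply, Pi.smul_apply, smul_eq_mul, Finset.sum_mul] at h2
      rw [Finset.sum_comm] at h2
      have h3 : ∀ i, ∑ e, g i * z i e * ang v e = g i * (2 * Real.pi) := by
        intro i
        simp only [mul_assoc, ← Finset.mul_sum]
        rw [hom i]
      simp only [h3, ← Finset.sum_mul] at h2
      exact (mul_eq_zero.1 h2).resolve_right hpi
    have h4 := (affineIndependent_iff.1 haff) Finset.univ g h1 hg
    exact fun i => h4 i (Finset.mem_univ i)
  let e := Fintype.equivFin ι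
  refine ⟨Fintype.card ι, fun i => M (j (e.symm i)), fun i => C * w (e.symm i), ?_, ?_, ?_, ?_⟩
  · have : (fun i : Fin (Fintype.card ι) => fun x : Fin 4 => (M (j (e.symm i)) x : ℝ)) =
        z ∘ e.symm := by
      funext i; exact hj _
    rw [this]
    exact hlin.comp _ e.symm.injective
  · exact fun i => hM _
  · exact fun i => mul_pos hCpos (hw _)
  · intro x
    have h1 := congrFun hsum x
    simp only [Finset.sum_apply, Pi.smul_apply, smul_eq_mul] at h1
    have h2 : ∑ i : Fin (Fintype.card ι), (C * w (e.symm i)) * (M (j (e.symm i)) x : ℝ) =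
        ∑ a, (C * w a) * (M (j a) x : ℝ) :=
      Equiv.sum_comp e.symm (fun a => (C * w a) * (M (j a) x : ℝ))
    rw [h2]
    have h3 : ∀ a, (M (j a) x : ℝ) = z a x := fun a => by rw [← hj a]
    simp only [h3, mul_assoc, ← Finset.mul_sum]
    rw [h1, hlM x, Finset.mul_sum]
    refine Finset.sum_congr rfl fun i _ => ?_
    field_simp

end Pool.Agent.TetMir
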