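import Pool.Agent.TetMir57.Arith
import Pool.Agent.TetMir57.SymCone
import Pool.Agent.TetDim.Final
import Pool.Agent.TetMir57.ContLine
import Pool.Agent.TetMir57.RepQ

/-! # Two symmetrised types (helper57) -/

set_option autoImplicit false

namespace Pool.Agent.TetMir

open Pool.Agent.TetRel Pool.Agent.TetDim

/-! ### Scaling -/

theorem N_smul (r : ℝ) (l : Fin 6 → ℝ) (i : Fin 6) : N (fun e => r * l e) i = r ^ 4 * N l i := by
  fin_cases i <;> simp [N, num] <;> ring

theorem F_smul (r : ℝ) (l : Fin 6 → ℝ) (i : Fin 4) : F (fun e => r * l e) i = r ^ 4 * F l i := by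
  fin_cases i <;> simp [F, heron] <;> ring

theorem P_smul (r : ℝ) (l : Fin 6 → ℝ) : P (fun e => r * l e) = r ^ 6 * P l := by
  simp only [P]; ring

theorem D_smul (r : ℝ) (l : Fin 6 → ℝ) (k : Fin 3) : D (fun e => r * l e) k = r * D l k := by
  fin_cases k <;> simp [D] <;> ring

theorem S_smul (r : ℝ) (l : Fin 6 → ℝ) (q : Fin 4) : S (fun e => r * l e) q = r * S l q := by
  fin_cases q <;> simp [S] <;> ring

theorem Good_smul {r : ℝ} (hr : 0 < r) {l : Fin 6 → ℝ} (h : Good l) :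
    Good (fun e => r * l e) := by
  refine ⟨fun q k => ?_, ?_⟩
  · rw [D_smul, S_smul]
    exact mul_lt_mul_of_pos_left (h.1 q k) hr
  · rw [P_smul]
    have := h.2
    positivity

theorem Th_smul {r : ℝ} (hr : 0 < r) (l : Fin 6 → ℝ) (i : Fin 6) :
    Th (fun e => r * l e) i = Th l i := by
  unfold Th
  rw [N_smul, F_smul, F_smul]
  have h1 : r ^ 4 * F l (ec i) * (r ^ 4 * F l (ed i)) = (r ^ 4) ^ 2 * (F l (ec i) * F l (ed i)) := by
    ring
  rw [h1, Real.sqrt_mul (by positivity), Real.sqrt_sq (by positivity)]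
  congr 1
  have : r ^ 4 ≠ 0 := by positivity
  rw [mul_div_mul_left _ _ this]

/-! ### The doubled integer vector -/

/-- twice the integer vector, as a vector of six integers -/
def dblN (n : Fin 4 → ℕ) : Fin 6 → ℕ := ![2 * n 0, n 2, n 3, n 2, n 3, 2 * n 1]

theorem dbl_pt (N : Fin 2 → Fin 4 → ℕ) (s : ℝ) :
    (fun e => (1 - s) * (dblN (N 0) e : ℝ) + s * (dblN (N 1) e : ℝ)) = dbl (pt N s) := by
  funext e
  fin_cases e <;> simp [dblN, dbl, pt] <;> ring

theorem dbl_lens (v : Fin 4 → E3) (hm : Mir (len v)) : dbl (lens v) = fun e => 2 * len v e := by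
  funext e
  obtain ⟨h1, h2⟩ := hm
  fin_cases e <;> simp [dbl, lens, h1, h2]

theorem sum_dblN (n : Fin 4 → ℕ) (t : Fin 6 → ℝ) (h1 : t 1 = t 3) (h2 : t 2 = t 4) :
    ∑ e, (dblN n e : ℝ) * t e =
      2 * ((n 0 : ℝ) * t 0 + n 1 * t 5 + n 2 * t 1 + n 3 * t 2) := by
  rw [Fin.sum_univ_six]
  simp [dblN]
  rw [← h1, ← h2]
  ring

/-- the polynomial in one variable of a polynomial on a line -/
theorem line_poly (B : MvPolynomial (Fin 6) ℚ) (a b : Fin 6 → ℕ) :
    ∃ p : Polynomial ℚ, ∀ s : ℝ, Polynomial.aeval s p =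
      MvPolynomial.aeval (fun e => (1 - s) * (a e : ℝ) + s * (b e : ℝ)) B := by
  refine ⟨MvPolynomial.aeval (fun e => (1 - Polynomial.X) * (a e : Polynomial ℚ) +
    Polynomial.X * (b e : Polynomial ℚ)) B, fun s => ?_⟩
  have h := MvPolynomial.comp_aeval_apply (σ := Fin 6) (R := ℚ)
    (f := fun e => (1 - Polynomial.X) * (a e : Polynomial ℚ) + Polynomial.X * (b e : Polynomial ℚ))
    (φ := Polynomial.aeval s) B
  rw [h]
  congr 1
  congr 1
  funext e
  simp

theorem two (v : Fin 4 → E3) (hv : AffineIndependent ℝ v) (hm : Mir (len v))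
    (N : Fin 2 → Fin 4 → ℕ) (w : Fin 2 → ℝ)
    (ha : ∀ i, ∑ e, (N i e : ℝ) * ang v e = 2 * Real.pi) (hw : ∀ i, 0 < w i)
    (hl : ∀ e, lens v e = ∑ i, w i * (N i e : ℝ)) : AlgLen v := by
  by_contra hna
  have w0 := hw 0
  have w1 := hw 1
  set c : ℝ := w 0 + w 1 with hc
  have hc0 : 0 < c := by positivity
  set s0 : ℝ := w 1 / c with hs0
  have hs : 0 < s0 := by positivity
  have hs1 : s0 < 1 := by
    rw [hs0, div_lt_one hc0]; linarith
  have hsc : s0 * c = w 1 := by rw [hs0]; field_simp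
  have hpt : ∀ e, pt N s0 e = c⁻¹ * lens v e := by
    intro e
    rw [hl e, Fin.sum_univ_two, eq_inv_mul_iff_mul_eq₀ hc0.ne']
    unfold pt
    have : (1 - s0) * c = w 0 := by rw [sub_mul, hsc]; linarith
    calc c * ((1 - s0) * (N 0 e : ℝ) + s0 * (N 1 e : ℝ))
        = ((1 - s0) * c) * (N 0 e : ℝ) + (s0 * c) * (N 1 e : ℝ) := by ring
      _ = _ := by rw [this, hsc]
  obtain ⟨hG, hlen, _, hdih, _⟩ := basic v hv
  have hd : dbl (pt N s0) = fun e => (2 * c⁻¹) * len v e := by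
    have h1 : pt N s0 = fun e => c⁻¹ * lens v e := funext hpt
    have h2 : dbl (fun e => c⁻¹ * lens v e) = fun e => c⁻¹ * dbl (lens v) e := by
      funext e
      fin_cases e <;> simp [dbl] <;> ring
    rw [h1, h2, dbl_lens v hm]
    funext e
    ring
  have hr : 0 < 2 * c⁻¹ := by positivity
  -- `s0` is transcendental
  have htr : ¬ IsAlgebraic ℚ s0 := by
    intro halg
    apply hna
    have h1 : ∀ e, IsAlgebraic ℚ (dbl (pt N s0) e) := by
      intro e
      rw [← dbl_pt]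
      have h2 : IsAlgebraic ℚ (1 - s0) := (isAlgebraic_one).sub halg
      exact (h2.mul (isAlgebraic_natCast _)).add (halg.mul (isAlgebraic_natCast _))
    intro i j
    have h3 : len v i / len v j = dbl (pt N s0) i / dbl (pt N s0) j := by
      rw [hd]
      have := (hlen j).ne'
      field_simp
    rw [h3, div_eq_mul_inv]
    exact (h1 i).mul ((h1 j).inv)
  have hm2 := dih_mir v hv hm
  have hGd : Good (dbl (pt N s0)) := by
    rw [hd]; exact Good_smul hr hG
  have hThd : ∀ e, Th (dbl (pt N s0)) e = dih v e := by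
    intro e
    rw [hd, Th_smul hr, hdih]
  have hrel : ∀ i, ∑ e, (dblN (N i) e : ℝ) * Th (dbl (pt N s0)) e = 4 * Real.pi := by
    intro i
    rw [sum_dblN _ _ (by rw [hThd, hThd]; exact hm2.1) (by rw [hThd, hThd]; exact hm2.2)]
    simp only [hThd]
    have h1 := ha i
    rw [Fin.sum_univ_four] at h1
    simp [ang] at h1
    linarith
  have hsin : ∀ i, ∀ s : ℝ, Good (dbl (pt N s)) →
      Real.sin (∑ e, (dblN (N i) e : ℝ) * Th (dbl (pt N s)) e) = 0 := by
    intro i s hG'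
    obtain ⟨B, hB⟩ := poly_relQ (dblN (N i))
    obtain ⟨p, hp⟩ := line_poly B (dblN (N 0)) (dblN (N 1))
    have h1 : Polynomial.aeval s0 p = 0 := by
      rw [hp, dbl_pt, hB _ hGd, hrel i]
      have : 4 * Real.pi = ((4 : ℕ) : ℝ) * Real.pi := by norm_num
      rw [this]
      exact Real.sin_nat_mul_pi 4
    have h2 : p = 0 := by
      by_contra h
      exact htr ⟨p, h, h1⟩
    rw [← hB _ hG', ← dbl_pt, ← hp, h2, map_zero]
  have hcont := cont_line (dblN (N 0)) (dblN (N 1)) s0 (by rw [dbl_pt]; exact hGd)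
    (by rw [dbl_pt]; exact hrel 0) (by rw [dbl_pt]; exact hrel 1)
    (fun s hs => by rw [dbl_pt] at hs ⊢; exact ⟨hsin 0 s hs, hsin 1 s hs⟩)
  refine arith N s0 hs hs1 hGd.1 fun s hT => ?_
  have h1 := hcont s (by rw [dbl_pt]; exact hT)
  rw [dbl_pt] at h1
  obtain ⟨h2, h3⟩ := h1
  have h4 : ∑ e, (dbl (pt N s)) e * Th (dbl (pt N s)) e = 4 * Real.pi := by
    rw [← h3]
    refine Finset.sum_congr rfl fun e _ => ?_
    rw [← congrFun (dbl_pt N s) e]
  obtain ⟨u, hu, hul⟩ := realize h2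
  have h5 := ineq u hu
  have h6 : ∑ e, len u e * dih u e = 4 * Real.pi := by
    rw [← h4, ← hul]
    exact Finset.sum_congr rfl fun e _ => by rw [(basic u hu).2.2.2.1]
  rw [h6, hul] at h5
  have hpi := Real.pi_pos
  refine ⟨h2.2, fun k => ?_, fun q => ?_⟩
  · have := h5.1 k
    nlinarith
  · have := h5.2 q
    nlinarith

end Pool.Agent.TetMir
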