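import Pool.Agent.TetMir57.SymCone
import Pool.Agent.TetMir57.Line3
import Pool.Agent.TetMir57.Extend
import Pool.Agent.TetMir57.Real3
import Pool.Agent.TetMir57.AlgCos
import Pool.Agent.TetMir57.Ident
import Pool.Agent.TetMir57.Two

/-! # A mirror-symmetric tetrahedron that tiles has algebraic edge ratios (helper57) -/

set_option autoImplicit false

namespace Pool.Agent.TetMir

open Pool.Agent.TetRel Pool.Agent.TetDim

theorem alg_comb (t : ℝ) (ht : IsAlgebraic ℚ (Complex.exp (t * Complex.I))) (q : ℚ) (w : ℤ) :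
    IsAlgebraic ℚ (Real.cos (Real.pi * q + t * w)) := by
  have hz : IsAlgebraic ℚ (Complex.exp ((Real.pi * q : ℝ) * Complex.I)) := by
    have hroot : Complex.exp ((Real.pi * q : ℝ) * Complex.I) ^ (2 * q.den) = 1 := by
      rw [← Complex.exp_nat_mul]
      rw [Complex.exp_eq_one_iff]
      refine ⟨q.num, ?_⟩
      have hq : (q : ℂ) * q.den = q.num := by
        exact_mod_cast Rat.mul_den_eq_num q
      push_cast
      linear_combination (2 * (Real.pi : ℂ) * Complex.I) * hq
    refine IsAlgebraic.of_pow (n := 2 * q.den) (by have := q.den_pos; omega) ?_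
    rw [hroot]
    exact isAlgebraic_one
  have hw : IsAlgebraic ℚ (Complex.exp ((t * w : ℝ) * Complex.I)) := by
    have : Complex.exp ((t * w : ℝ) * Complex.I) = Complex.exp (t * Complex.I) ^ w := by
      rw [← Complex.exp_int_mul]
      congr 1
      push_cast
      ring
    rw [this]
    rcases Int.eq_nat_or_neg w with ⟨n, rfl | rfl⟩
    · rw [zpow_natCast]
      exact ht.pow n
    · rw [zpow_neg, zpow_natCast]
      exact (ht.pow n).inv
  have he : Complex.exp (((Real.pi * q + t * w : ℝ) : ℂ) * Complex.I) =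
      Complex.exp ((Real.pi * q : ℝ) * Complex.I) * Complex.exp ((t * w : ℝ) * Complex.I) := by
    rw [← Complex.exp_add]
    congr 1
    push_cast
    ring
  have hE : IsAlgebraic ℚ (Complex.exp (((Real.pi * q + t * w : ℝ) : ℂ) * Complex.I)) := by
    rw [he]
    exact hz.mul hw
  have hc : ((Real.cos (Real.pi * q + t * w) : ℝ) : ℂ) =
      (Complex.exp (((Real.pi * q + t * w : ℝ) : ℂ) * Complex.I) +
        (Complex.exp (((Real.pi * q + t * w : ℝ) : ℂ) * Complex.I))⁻¹) * (2 : ℂ)⁻¹ := by
    rw [Complex.ofReal_cos, Complex.cos, ← Complex.exp_neg, neg_mul, div_eq_mul_inv]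
  have h2 : IsAlgebraic ℚ ((Real.cos (Real.pi * q + t * w) : ℝ) : ℂ) := by
    rw [hc]
    exact (hE.add hE.inv).mul ((by simpa using isAlgebraic_natCast (R := ℚ) (A := ℂ) 2 : IsAlgebraic ℚ (2 : ℂ)).inv)
  exact (isAlgebraic_algebraMap_iff (algebraMap ℝ ℂ).injective).1 h2

theorem three (v : Fin 4 → E3) (hv : AffineIndependent ℝ v) (hm : Mir (len v))
    (N : Fin 3 → Fin 4 → ℕ)
    (hN : LinearIndependent ℝ (fun i : Fin 3 => fun e : Fin 4 => (N i e : ℝ)))
    (ha : ∀ i, ∑ e, (N i e : ℝ) * ang v e = 2 * Real.pi) : AlgLen v := by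
  obtain ⟨q, w, t, hw, hx⟩ := rat_line N hN (ang v) ha
  by_cases ht : IsAlgebraic ℚ (Complex.exp (t * Complex.I))
  · refine alg_of_ang v hv hm fun e => ?_
    rw [hx e]
    exact alg_comb t ht (q e) (w e)
  · exfalso
    obtain ⟨i1, i2, i3, i4, i5⟩ := ident v hv hm
    have hx' : ang v = fun e => Real.pi * q e + t * w e := funext hx
    obtain ⟨e1, e2⟩ := extend q w t ht
    rw [hx'] at i1 i2
    rw [hx 1, hx 2] at i3
    rw [hx 1, hx 3] at i4
    exact real_three q w t hw (e1 i1) (e2 i2) i3 i4 (fun e => by rw [← hx e]; exact i5 e)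

/-- **A tetrahedron with a mirror symmetry that tiles space has algebraic edge ratios.** -/
theorem mirror (v : Fin 4 → E3) (hv : AffineIndependent ℝ v) (hm : Mir (len v)) (hT : Tiles v) :
    AlgLen v := by
  obtain ⟨m, N, w, hN, ha, hw, hl⟩ := sym_cone v hv hT hm
  have hpos : ∀ e, 0 < len v e := (basic v hv).2.1
  have hm4 : m ≤ 4 := by
    have := hN.fintype_card_le_finrank
    simpa using this
  have hlens0 : 0 < lens v 0 := hpos 0
  interval_cases m
  · exfalso
    rw [hl 0] at hlens0
    simp at hlens0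
  · -- one type: rational ratios
    have h0 : ∀ e, lens v e = w 0 * (N 0 e : ℝ) := fun e => by rw [hl e]; simp
    have a0 : len v 0 = w 0 * (N 0 0 : ℝ) := h0 0
    have a5 : len v 5 = w 0 * (N 0 1 : ℝ) := h0 1
    have a1 : 2 * len v 1 = w 0 * (N 0 2 : ℝ) := h0 2
    have a2 : 2 * len v 2 = w 0 * (N 0 3 : ℝ) := h0 3
    have hrat : ∀ e, ∃ r : ℚ, len v e = w 0 * (r : ℝ) := by
      intro e
      fin_cases e
      · exact ⟨N 0 0, by simpa using a0⟩
      · exact ⟨N 0 2 / 2, by push_cast; show len v 1 = _; linarith⟩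
      · exact ⟨N 0 3 / 2, by push_cast; show len v 2 = _; linarith⟩
      · refine ⟨N 0 2 / 2, ?_⟩
        push_cast
        show len v 3 = _
        rw [← hm.1]; linarith
      · refine ⟨N 0 3 / 2, ?_⟩
        push_cast
        show len v 4 = _
        rw [← hm.2]; linarith
      · exact ⟨N 0 1, by simpa using a5⟩
    intro i j
    obtain ⟨r, hr⟩ := hrat i
    obtain ⟨r', hr'⟩ := hrat j
    have hw0 := (hw 0).ne'
    have : len v i / len v j = ((r / r' : ℚ) : ℝ) := by
      rw [hr, hr', mul_div_mul_left _ _ hw0]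
      push_cast
      rfl
    rw [this]
    exact isAlgebraic_algebraMap (R := ℚ) (A := ℝ) (r / r')
  · exact two v hv hm N w ha hw hl
  · exact three v hv hm N hN ha
  · exact four v hv hm N hN ha

end Pool.Agent.TetMir
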