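import Pool.Agent.TetMir57.SymCore
import Pool.Agent.TetMir57.Mirror

/-! # Tetrahedra with a nontrivial symmetry: the main theorem (helper57, helper21) -/

set_option autoImplicit false

open Pool.Agent.TetRel

namespace Pool.Agent.TetMir

theorem sym (v : Fin 4 → E3) (hv : AffineIndependent ℝ v)
    (hsym : ∃ σ : Equiv.Perm (Fin 4), σ ≠ 1 ∧ ∀ i j, dist (v (σ i)) (v (σ j)) = dist (v i) (v j))
    (hna : ∃ i j k l : Fin 4, ¬ IsAlgebraic ℚ (dist (v i) (v j) / dist (v k) (v l))) :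
    (Tiles v ↔ TetRot.Hill v) ∧ (Tiles v → TetRot.TilesPer v) :=
  sym_of mirror v hv hsym hna

end Pool.Agent.TetMir
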