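import Pool.Agent.TetMir57.Defs
import Pool.Agent.TetDim.BasicG
import Pool.Agent.TetDim.Cont3

/-! # The arithmetic of two symmetrised types (helper57) -/

set_option autoImplicit false

namespace Pool.Agent.TetMir

open Pool.Agent.TetRel Pool.Agent.TetDim Filter Topology Set

/-- the volume form in symmetrised coordinates -/
def PP (x : Fin 4 → ℝ) : ℝ :=
  4 * x 0 ^ 2 * (4 * (x 2 ^ 2 - x 0 ^ 2) * (x 3 ^ 2 - x 0 ^ 2) -
    (x 2 ^ 2 + x 3 ^ 2 - 2 * x 0 ^ 2 - 4 * x 1 ^ 2) ^ 2)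

theorem P_dbl (x : Fin 4 → ℝ) : P (dbl x) = PP x := by
  simp only [P, dbl, PP, Matrix.cons_val]
  ring

/-- the strict inequalities -/
def W (x : Fin 4 → ℝ) : Prop :=
  x 0 + x 1 < 2 ∧ x 2 + x 3 < 4 ∧ 4 < 2 * x 0 + x 2 + x 3 ∧ 2 < x 1 + x 2 ∧ 2 < x 1 + x 3

/-- the weak inequalities -/
def CL (x : Fin 4 → ℝ) : Prop :=
  x 0 + x 1 ≤ 2 ∧ x 2 + x 3 ≤ 4 ∧ 4 ≤ 2 * x 0 + x 2 + x 3 ∧ 2 ≤ x 1 + x 2 ∧ 2 ≤ x 1 + x 3

theorem tri_dbl (x : Fin 4 → ℝ) : Tri (dbl x) ↔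
    (0 < x 0 ∧ x 0 < x 2 ∧ x 0 < x 3 ∧ 2 * x 1 < x 2 + x 3 ∧ x 2 < x 3 + 2 * x 1 ∧
      x 3 < x 2 + 2 * x 1) := by
  constructor
  · intro h
    have a1 : D (dbl x) 1 < S (dbl x) 0 := h 0 1
    have a2 : D (dbl x) 0 < S (dbl x) 2 := h 2 0
    have a3 : D (dbl x) 0 < S (dbl x) 3 := h 3 0
    have a4 : D (dbl x) 0 < S (dbl x) 0 := h 0 0
    have a5 : D (dbl x) 1 < S (dbl x) 3 := h 3 1
    have a6 : D (dbl x) 1 < S (dbl x) 2 := h 2 1
    simp only [D, S, dbl, Matrix.cons_val] at a1 a2 a3 a4 a5 a6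
    refine ⟨?_, ?_, ?_, ?_, ?_, ?_⟩ <;> linarith
  · intro h
    obtain ⟨h1, h2, h3, h4, h5, h6⟩ := h
    intro q k
    fin_cases q <;> fin_cases k <;> simp only [D, S, dbl, Matrix.cons_val, Fin.reduceFinMk,
      Fin.zero_eta, Fin.mk_one, Fin.isValue] <;> linarith

theorem W_of (x : Fin 4 → ℝ) (h1 : ∀ k, D (dbl x) k < 4) (h2 : ∀ q, 4 < S (dbl x) q) : W x := by
  have a0 := h1 0
  have a1 := h1 1
  have b0 := h2 0
  have b2 := h2 2
  have b3 := h2 3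
  simp [D, S, dbl] at a0 a1 b0 b2 b3
  refine ⟨?_, ?_, ?_, ?_, ?_⟩ <;> linarith

theorem tri_of_W (x : Fin 4 → ℝ) (h : W x) (h0 : ∀ e, 0 ≤ x e) : Tri (dbl x) := by
  rw [tri_dbl]
  obtain ⟨h1, h2, h3, h4, h5⟩ := h
  have := h0 0
  have := h0 1
  refine ⟨?_, ?_, ?_, ?_, ?_, ?_⟩ <;> linarith

/-- An end at a type. -/
theorem type_end (n : Fin 4 → ℕ) (h : CL fun e => (n e : ℝ)) (hP : 0 ≤ PP fun e => (n e : ℝ)) :
    n 2 + n 3 = 4 := by
  obtain ⟨h1, h2, h3, h4, h5⟩ := h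
  beta_reduce at h1 h2 h3 h4 h5
  have g1 : n 0 + n 1 ≤ 2 := by exact_mod_cast h1
  have g2 : n 2 + n 3 ≤ 4 := by exact_mod_cast h2
  have g3 : 4 ≤ 2 * n 0 + n 2 + n 3 := by exact_mod_cast h3
  have g4 : 2 ≤ n 1 + n 2 := by exact_mod_cast h4
  have g5 : 2 ≤ n 1 + n 3 := by exact_mod_cast h5
  unfold PP at hP
  beta_reduce at hP
  clear h1 h2 h3 h4 h5
  generalize n 0 = a at *
  generalize n 1 = b at *
  generalize n 2 = c at *
  generalize n 3 = d at *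
  by_contra hne
  have e1 : (a = 1 ∧ b = 1 ∧ c = 1 ∧ d = 1) ∨ (a = 1 ∧ b = 1 ∧ c = 1 ∧ d = 2) ∨
      (a = 1 ∧ b = 1 ∧ c = 2 ∧ d = 1) := by omega
  rcases e1 with ⟨rfl, rfl, rfl, rfl⟩ | ⟨rfl, rfl, rfl, rfl⟩ | ⟨rfl, rfl, rfl, rfl⟩ <;>
    norm_num at hP

/-- An end with positive coordinates. -/
theorem int_end (x : Fin 4 → ℝ) (h0 : ∀ e, 0 < x e) (h : CL x) (hP : 0 ≤ PP x)
    (hT : ¬ Tri (dbl x)) : x 0 + x 1 = 2 ∧
      ((x 1 + x 2 = 2 ∧ x 0 = x 2 ∧ x 3 ^ 2 = x 0 ^ 2 + 4 * x 1 ^ 2) ∨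
       (x 1 + x 3 = 2 ∧ x 0 = x 3 ∧ x 2 ^ 2 = x 0 ^ 2 + 4 * x 1 ^ 2)) := by
  obtain ⟨h1, h2, h3, h4, h5⟩ := h
  have p0 := h0 0
  have p1 := h0 1
  have p2 := h0 2
  have p3 := h0 3
  rw [tri_dbl] at hT
  unfold PP at hP
  generalize x 0 = a at *
  generalize x 1 = b at *
  generalize x 2 = c at *
  generalize x 3 = d at *
  by_cases k1 : a < c
  · by_cases k2 : a < d
    · exfalso
      by_cases k3 : 2 * b < c + d
      · by_cases k4 : c < d + 2 * b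
        · by_cases k5 : d < c + 2 * b
          · exact hT ⟨p0, k1, k2, k3, k4, k5⟩
          · have e : 2 * b = d - c := by linarith
            have e2 : 4 * b ^ 2 = (d - c) ^ 2 := by rw [← e]; ring
            have e3 : 4 * a ^ 2 * (4 * (c ^ 2 - a ^ 2) * (d ^ 2 - a ^ 2) -
                (c ^ 2 + d ^ 2 - 2 * a ^ 2 - 4 * b ^ 2) ^ 2) = - (16 * a ^ 4 * (d - c) ^ 2) := by
              rw [e2]; ring
            rw [e3, ← e2] at hP
            have : 0 < 16 * a ^ 4 * (4 * b ^ 2) := by positivity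
            linarith
        · have e : 2 * b = c - d := by linarith
          have e2 : 4 * b ^ 2 = (c - d) ^ 2 := by rw [← e]; ring
          have e3 : 4 * a ^ 2 * (4 * (c ^ 2 - a ^ 2) * (d ^ 2 - a ^ 2) -
              (c ^ 2 + d ^ 2 - 2 * a ^ 2 - 4 * b ^ 2) ^ 2) = - (16 * a ^ 4 * (c - d) ^ 2) := by
            rw [e2]; ring
          rw [e3, ← e2] at hP
          have : 0 < 16 * a ^ 4 * (4 * b ^ 2) := by positivity
          linarith
      · have e : 2 * b = c + d := by linarith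
        have e2 : 4 * b ^ 2 = (c + d) ^ 2 := by rw [← e]; ring
        have e3 : 4 * a ^ 2 * (4 * (c ^ 2 - a ^ 2) * (d ^ 2 - a ^ 2) -
            (c ^ 2 + d ^ 2 - 2 * a ^ 2 - 4 * b ^ 2) ^ 2) = - (16 * a ^ 4 * (c + d) ^ 2) := by
          rw [e2]; ring
        rw [e3] at hP
        have : 0 < 16 * a ^ 4 * (c + d) ^ 2 := by positivity
        linarith
    · have e : a = d := by linarith
      refine ⟨by linarith, Or.inr ⟨by linarith, e, ?_⟩⟩
      subst e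
      have e3 : 4 * a ^ 2 * (4 * (c ^ 2 - a ^ 2) * (a ^ 2 - a ^ 2) -
          (c ^ 2 + a ^ 2 - 2 * a ^ 2 - 4 * b ^ 2) ^ 2) =
          - (4 * a ^ 2 * (c ^ 2 - a ^ 2 - 4 * b ^ 2) ^ 2) := by ring
      rw [e3] at hP
      have h6 : 4 * a ^ 2 * (c ^ 2 - a ^ 2 - 4 * b ^ 2) ^ 2 = 0 :=
        le_antisymm (by linarith) (by positivity)
      have h7 : (c ^ 2 - a ^ 2 - 4 * b ^ 2) ^ 2 = 0 := by
        rcases mul_eq_zero.1 h6 with h | h
        · exact absurd h (by positivity)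
        · exact h
      have h8 := pow_eq_zero_iff (two_ne_zero) |>.1 h7
      linarith
  · have e : a = c := by linarith
    refine ⟨by linarith, Or.inl ⟨by linarith, e, ?_⟩⟩
    subst e
    have e3 : 4 * a ^ 2 * (4 * (a ^ 2 - a ^ 2) * (d ^ 2 - a ^ 2) -
        (a ^ 2 + d ^ 2 - 2 * a ^ 2 - 4 * b ^ 2) ^ 2) =
        - (4 * a ^ 2 * (d ^ 2 - a ^ 2 - 4 * b ^ 2) ^ 2) := by ring
    rw [e3] at hP
    have h6 : 4 * a ^ 2 * (d ^ 2 - a ^ 2 - 4 * b ^ 2) ^ 2 = 0 :=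
      le_antisymm (by linarith) (by positivity)
    have h7 : (d ^ 2 - a ^ 2 - 4 * b ^ 2) ^ 2 = 0 := by
      rcases mul_eq_zero.1 h6 with h | h
      · exact absurd h (by positivity)
      · exact h
    have h8 := pow_eq_zero_iff (two_ne_zero) |>.1 h7
    linarith

theorem nonneg_left {g : ℝ → ℝ} (hg : Continuous g) {s t : ℝ} (hst : s < t)
    (h : ∀ u, s ≤ u → u < t → 0 < g u) : 0 ≤ g t := by
  by_contra hcon
  push Not at hcon
  have h1 : ∀ᶠ u in 𝓝 t, g u < 0 := hg.continuousAt.eventually_lt_const hcon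
  have h2 : ∀ᶠ u in 𝓝[<] t, g u < 0 := h1.filter_mono nhdsWithin_le_nhds
  have h3 : ∀ᶠ u in 𝓝[<] t, s < u := (eventually_gt_nhds hst).filter_mono nhdsWithin_le_nhds
  have h4 : ∀ᶠ u in 𝓝[<] t, u < t := eventually_mem_nhdsWithin
  obtain ⟨u, hu1, hu2, hu3⟩ := (h2.and (h3.and h4)).exists
  linarith [h u hu2.le hu3]

theorem pt_cont (N : Fin 2 → Fin 4 → ℕ) (e : Fin 4) : Continuous fun s => pt N s e := by
  unfold pt
  fun_prop

theorem pt_nonneg (N : Fin 2 → Fin 4 → ℕ) {s : ℝ} (h0 : 0 ≤ s) (h1 : s ≤ 1) (e : Fin 4) :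
    0 ≤ pt N s e := by
  unfold pt
  have : (0 : ℝ) ≤ N 0 e := Nat.cast_nonneg _
  have : (0 : ℝ) ≤ N 1 e := Nat.cast_nonneg _
  have : 0 ≤ 1 - s := by linarith
  positivity

/-- no type is strictly inside -/
theorem not_W_type (n : Fin 4 → ℕ) : ¬ W fun e => (n e : ℝ) := by
  rintro ⟨h1, h2, h3, h4, h5⟩
  beta_reduce at h1 h2 h3 h4 h5
  have g1 : n 0 + n 1 < 2 := by exact_mod_cast h1
  have g2 : n 2 + n 3 < 4 := by exact_mod_cast h2
  have g4 : 2 < n 1 + n 2 := by exact_mod_cast h4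
  have g5 : 2 < n 1 + n 3 := by exact_mod_cast h5
  omega

theorem pt_one (N : Fin 2 → Fin 4 → ℕ) : pt N 1 = fun e => (N 1 e : ℝ) := by
  funext e; simp [pt]

theorem pt_zero (N : Fin 2 → Fin 4 → ℕ) : pt N 0 = fun e => (N 0 e : ℝ) := by
  funext e; simp [pt]

/-- the right end of the interval -/
theorem end_right (N : Fin 2 → Fin 4 → ℕ) (s0 : ℝ) (h0 : 0 < s0) (h1 : s0 < 1)
    (hT : Tri (dbl (pt N s0)))
    (hC : ∀ s : ℝ, Tri (dbl (pt N s)) → 0 < P (dbl (pt N s)) ∧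
      (∀ k, D (dbl (pt N s)) k < 4) ∧ ∀ q, 4 < S (dbl (pt N s)) q) :
    ∃ s2, s0 < s2 ∧ s2 ≤ 1 ∧ CL (pt N s2) ∧ 0 ≤ PP (pt N s2) ∧ ¬ Tri (dbl (pt N s2)) := by
  have hW0 : W (pt N s0) := W_of _ (hC s0 hT).2.1 (hC s0 hT).2.2
  have c0 := pt_cont N 0
  have c1 := pt_cont N 1
  have c2 := pt_cont N 2
  have c3 := pt_cont N 3
  have hopen : IsOpen {s : ℝ | W (pt N s)} := by
    unfold W
    refine IsOpen.and (isOpen_lt (by fun_prop) (by fun_prop)) ?_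
    refine IsOpen.and (isOpen_lt (by fun_prop) (by fun_prop)) ?_
    refine IsOpen.and (isOpen_lt (by fun_prop) (by fun_prop)) ?_
    exact IsOpen.and (isOpen_lt (by fun_prop) (by fun_prop)) (isOpen_lt (by fun_prop) (by fun_prop))
  have hcomp : IsCompact (Icc s0 1 ∩ {s : ℝ | W (pt N s)}ᶜ) :=
    isCompact_Icc.inter_right hopen.isClosed_compl
  have hne : (Icc s0 1 ∩ {s : ℝ | W (pt N s)}ᶜ).Nonempty := by
    refine ⟨1, ⟨h1.le, le_refl _⟩, ?_⟩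
    show ¬ W (pt N 1)
    rw [pt_one]
    exact not_W_type _
  obtain ⟨s2, ⟨⟨ha, hb⟩, hc⟩, hmin⟩ := hcomp.exists_isLeast hne
  have hc' : ¬ W (pt N s2) := hc
  have hlt : s0 < s2 := lt_of_le_of_ne ha (by rintro rfl; exact hc' hW0)
  have hW : ∀ u, s0 ≤ u → u < s2 → W (pt N u) := by
    intro u hu1 hu2
    by_contra hcon
    have := hmin ⟨⟨hu1, by linarith⟩, hcon⟩
    linarith
  have hTri : ∀ u, s0 ≤ u → u < s2 → Tri (dbl (pt N u)) := fun u hu1 hu2 =>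
    tri_of_W _ (hW u hu1 hu2) (pt_nonneg N (by linarith) (by linarith))
  refine ⟨s2, hlt, hb, ⟨?_, ?_, ?_, ?_, ?_⟩, ?_, ?_⟩
  · have := nonneg_left (g := fun u => 2 - (pt N u 0 + pt N u 1)) (by fun_prop) hlt
      (fun u a b => by linarith [(hW u a b).1])
    linarith
  · have := nonneg_left (g := fun u => 4 - (pt N u 2 + pt N u 3)) (by fun_prop) hlt
      (fun u a b => by linarith [(hW u a b).2.1])
    linarith
  · have := nonneg_left (g := fun u => 2 * pt N u 0 + pt N u 2 + pt N u 3 - 4) (by fun_prop) hlt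
      (fun u a b => by linarith [(hW u a b).2.2.1])
    linarith
  · have := nonneg_left (g := fun u => pt N u 1 + pt N u 2 - 2) (by fun_prop) hlt
      (fun u a b => by linarith [(hW u a b).2.2.2.1])
    linarith
  · have := nonneg_left (g := fun u => pt N u 1 + pt N u 3 - 2) (by fun_prop) hlt
      (fun u a b => by linarith [(hW u a b).2.2.2.2])
    linarith
  · refine nonneg_left (g := fun u => PP (pt N u)) ?_ hlt (fun u a b => ?_)
    · unfold PP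
      fun_prop
    · rw [← P_dbl]
      exact (hC u (hTri u a b)).1
  · intro hT2
    exact hc' (W_of _ (hC s2 hT2).2.1 (hC s2 hT2).2.2)

/-- the arithmetic of a mixed pair of ends, first case -/
theorem mixed_num (a1 b1 c1 d1 a2 b2 c2 d2 : ℕ) (s s0 : ℝ) (hs : 0 < s) (hs1 : s < 1)
    (e1 : (1 - s) * (a1 + b1 : ℝ) + s * (a2 + b2) = 2)
    (e2 : (1 - s) * (b1 + c1 : ℝ) + s * (b2 + c2) = 2)
    (e3 : (1 - s) * (a1 : ℝ) + s * a2 = (1 - s) * c1 + s * c2)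
    (e4 : ((1 - s) * (d1 : ℝ) + s * d2) ^ 2 = ((1 - s) * (a1 : ℝ) + s * a2) ^ 2 +
      4 * ((1 - s) * (b1 : ℝ) + s * b2) ^ 2)
    (f1 : a2 + b2 ≤ 2) (f2 : c2 + d2 = 4) (f3 : 2 ≤ b2 + c2) (f4 : 2 ≤ b2 + d2)
    (g1 : (1 - s0) * (a1 + b1 : ℝ) + s0 * (a2 + b2) < 2)
    (g2 : 2 < (1 - s0) * (b1 + c1 : ℝ) + s0 * (b2 + c2)) : False := by
  have hs' : 0 < 1 - s := by linarith
  -- `a2 + b2 ≤ 1`
  have k1 : a2 + b2 ≤ 1 := by
    by_contra hcon
    have h : a2 + b2 = 2 := by omega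
    have h' : (a2 : ℝ) + b2 = 2 := by exact_mod_cast h
    rw [h'] at e1 g1
    have : (1 - s) * ((a1 : ℝ) + b1 - 2) = 0 := by linarith
    rcases mul_eq_zero.1 this with h2 | h2
    · linarith
    · have h3 : (a1 : ℝ) + b1 = 2 := by linarith
      rw [h3] at g1
      linarith
  have k2 : 3 ≤ b2 + c2 := by
    by_contra hcon
    have h : b2 + c2 = 2 := by omega
    have h' : (b2 : ℝ) + c2 = 2 := by exact_mod_cast h
    rw [h'] at e2 g2
    have : (1 - s) * ((b1 : ℝ) + c1 - 2) = 0 := by linarith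
    rcases mul_eq_zero.1 this with h2 | h2
    · linarith
    · have h3 : (b1 : ℝ) + c1 = 2 := by linarith
      rw [h3] at g2
      linarith
  have k3 : a2 = 0 ∧ b2 = 1 ∧ ((c2 = 2 ∧ d2 = 2) ∨ (c2 = 3 ∧ d2 = 1)) := by omega
  obtain ⟨ha2, hb2, hcd⟩ := k3
  subst ha2 hb2
  -- the ratio of the weights
  obtain ⟨r, hr0, hr⟩ : ∃ r : ℝ, 0 < r ∧ s = r * (1 - s) :=
    ⟨s / (1 - s), by positivity, by field_simp⟩
  have q1 : (a1 : ℝ) + b1 = 2 + r := by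
    have : (1 - s) * ((a1 : ℝ) + b1 - 2 - r) = 0 := by push_cast at e1; linarith
    rcases mul_eq_zero.1 this with h2 | h2 <;> linarith
  have q3 : (a1 : ℝ) = c1 + r * c2 := by
    have : (1 - s) * ((a1 : ℝ) - c1 - r * c2) = 0 := by
      push_cast at e3
      linear_combination e3 + (c2 : ℝ) * hr
    rcases mul_eq_zero.1 this with h2 | h2 <;> linarith
  have q2 : (b1 : ℝ) + c1 = 2 + r - r * c2 := by linarith
  have q4 : ((d1 : ℝ) + r * d2) ^ 2 = (a1 : ℝ) ^ 2 + 4 * ((b1 : ℝ) + r) ^ 2 := by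
    have h5 : (1 - s) ^ 2 * (((d1 : ℝ) + r * d2) ^ 2 - ((a1 : ℝ) ^ 2 + 4 * ((b1 : ℝ) + r) ^ 2)) = 0 := by
      have t1 : (1 - s) * (d1 : ℝ) + s * d2 = (1 - s) * ((d1 : ℝ) + r * d2) := by
        linear_combination (d2 : ℝ) * hr
      have t2 : (1 - s) * (b1 : ℝ) + s * ((1 : ℕ) : ℝ) = (1 - s) * ((b1 : ℝ) + r) := by
        push_cast
        linear_combination hr
      have t3 : (1 - s) * (a1 : ℝ) + s * ((0 : ℕ) : ℝ) = (1 - s) * (a1 : ℝ) := by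
        push_cast
        ring
      rw [t1, t2, t3] at e4
      linear_combination e4
    rcases mul_eq_zero.1 h5 with h2 | h2
    · exact absurd h2 (by positivity)
    · linarith
  -- `r` is the integer `a1 + b1 - 2`
  have k4 : 3 ≤ a1 + b1 := by
    have : (2 : ℝ) < ((a1 + b1 : ℕ) : ℝ) := by push_cast; linarith
    have : 2 < a1 + b1 := by exact_mod_cast this
    omega
  obtain ⟨m, hm⟩ : ∃ m, a1 + b1 = 2 + m := ⟨a1 + b1 - 2, by omega⟩
  have hrm : r = m := by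
    have : ((a1 + b1 : ℕ) : ℝ) = ((2 + m : ℕ) : ℝ) := by rw [hm]
    push_cast at this
    linarith
  subst hrm
  rcases hcd with ⟨rfl, rfl⟩ | ⟨rfl, rfl⟩
  · have u2 : b1 + c1 + m = 2 := by
      have : ((b1 + c1 + m : ℕ) : ℝ) = ((2 : ℕ) : ℝ) := by push_cast at q2 ⊢; linarith
      exact_mod_cast this
    have u3 : a1 = c1 + 2 * m := by
      have : (a1 : ℝ) = ((c1 + 2 * m : ℕ) : ℝ) := by push_cast at q3 ⊢; linarith
      exact_mod_cast this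
    have u4 : (d1 + m * 2) ^ 2 = a1 ^ 2 + 4 * (b1 + m) ^ 2 := by
      have : (((d1 + m * 2) ^ 2 : ℕ) : ℝ) = ((a1 ^ 2 + 4 * (b1 + m) ^ 2 : ℕ) : ℝ) := by
        push_cast at q4 ⊢; linarith
      exact_mod_cast this
    have v : (m = 1 ∧ a1 = 2 ∧ b1 = 1) ∨ (m = 1 ∧ a1 = 3 ∧ b1 = 0) ∨ (m = 2 ∧ a1 = 4 ∧ b1 = 0) := by
      omega
    have hd : d1 ≤ 6 := by
      rcases v with ⟨rfl, rfl, rfl⟩ | ⟨rfl, rfl, rfl⟩ | ⟨rfl, rfl, rfl⟩ <;> nlinarith
    rcases v with ⟨rfl, rfl, rfl⟩ | ⟨rfl, rfl, rfl⟩ | ⟨rfl, rfl, rfl⟩ <;>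
      interval_cases d1 <;> omega
  · have u2 : b1 + c1 + 2 * m = 2 := by
      have : ((b1 + c1 + 2 * m : ℕ) : ℝ) = ((2 : ℕ) : ℝ) := by push_cast at q2 ⊢; linarith
      exact_mod_cast this
    have u3 : a1 = c1 + 3 * m := by
      have : (a1 : ℝ) = ((c1 + 3 * m : ℕ) : ℝ) := by push_cast at q3 ⊢; linarith
      exact_mod_cast this
    have u4 : (d1 + m * 1) ^ 2 = a1 ^ 2 + 4 * (b1 + m) ^ 2 := by
      have : (((d1 + m * 1) ^ 2 : ℕ) : ℝ) = ((a1 ^ 2 + 4 * (b1 + m) ^ 2 : ℕ) : ℝ) := by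
        push_cast at q4 ⊢; linarith
      exact_mod_cast this
    have v : m = 1 ∧ a1 = 3 ∧ b1 = 0 := by omega
    obtain ⟨rfl, rfl, rfl⟩ := v
    have hd : d1 ≤ 6 := by nlinarith
    interval_cases d1 <;> omega

theorem mixed (N : Fin 2 → Fin 4 → ℕ) (s s0 : ℝ) (hs : 0 < s) (hs1 : s < 1)
    (hx : pt N s 0 + pt N s 1 = 2 ∧
      ((pt N s 1 + pt N s 2 = 2 ∧ pt N s 0 = pt N s 2 ∧
          pt N s 3 ^ 2 = pt N s 0 ^ 2 + 4 * pt N s 1 ^ 2) ∨
       (pt N s 1 + pt N s 3 = 2 ∧ pt N s 0 = pt N s 3 ∧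
          pt N s 2 ^ 2 = pt N s 0 ^ 2 + 4 * pt N s 1 ^ 2)))
    (hn : CL fun e => (N 1 e : ℝ)) (h4 : N 1 2 + N 1 3 = 4) (hW : W (pt N s0)) : False := by
  obtain ⟨f1, _, _, f3, f4⟩ := hn
  beta_reduce at f1 f3 f4
  have f1' : N 1 0 + N 1 1 ≤ 2 := by exact_mod_cast f1
  have f3' : 2 ≤ N 1 1 + N 1 2 := by exact_mod_cast f3
  have f4' : 2 ≤ N 1 1 + N 1 3 := by exact_mod_cast f4
  obtain ⟨g1, _, _, g2, g3⟩ := hW
  unfold pt at hx g1 g2 g3
  obtain ⟨e1, ⟨e2, e3, e4⟩ | ⟨e2, e3, e4⟩⟩ := hx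
  · exact mixed_num (N 0 0) (N 0 1) (N 0 2) (N 0 3) (N 1 0) (N 1 1) (N 1 2) (N 1 3) s s0 hs hs1
      (by linarith) (by linarith) e3 e4 f1' h4 f3' f4' (by linarith) (by linarith)
  · exact mixed_num (N 0 0) (N 0 1) (N 0 3) (N 0 2) (N 1 0) (N 1 1) (N 1 3) (N 1 2) s s0 hs hs1
      (by linarith) (by linarith) e3 e4 f1' (by omega) f4' f3' (by linarith) (by linarith)

theorem pt_swap (N : Fin 2 → Fin 4 → ℕ) (s : ℝ) : pt ![N 1, N 0] s = pt N (1 - s) := by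
  funext e
  simp [pt]
  ring

theorem pt_pos (N : Fin 2 → Fin 4 → ℕ) {s0 : ℝ} {e : Fin 4} (h : 0 < pt N s0 e) {s : ℝ}
    (hs : 0 < s) (hs1 : s < 1) : 0 < pt N s e := by
  unfold pt at *
  have h' : 0 < 1 - s := by linarith
  rcases Nat.eq_zero_or_pos (N 0 e) with h0 | h0
  · rcases Nat.eq_zero_or_pos (N 1 e) with h1 | h1
    · rw [h0, h1] at h
      simp at h
    · have : (0 : ℝ) < N 1 e := by exact_mod_cast h1
      have : (0 : ℝ) ≤ N 0 e := Nat.cast_nonneg _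
      positivity
  · have : (0 : ℝ) < N 0 e := by exact_mod_cast h0
    have : (0 : ℝ) ≤ N 1 e := Nat.cast_nonneg _
    positivity

theorem arith (N : Fin 2 → Fin 4 → ℕ) (s0 : ℝ) (h0 : 0 < s0) (h1 : s0 < 1)
    (hT : Tri (dbl (pt N s0)))
    (hC : ∀ s : ℝ, Tri (dbl (pt N s)) → 0 < P (dbl (pt N s)) ∧
      (∀ k, D (dbl (pt N s)) k < 4) ∧ ∀ q, 4 < S (dbl (pt N s)) q) : False := by
  have hW0 : W (pt N s0) := W_of _ (hC s0 hT).2.1 (hC s0 hT).2.2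
  have hpos : ∀ e, 0 < pt N s0 e := by
    have := (tri_dbl _).1 hT
    obtain ⟨t1, t2, t3, t4, t5, t6⟩ := this
    intro e
    fin_cases e
    · exact t1
    · show 0 < pt N s0 1
      linarith
    · show 0 < pt N s0 2
      linarith
    · show 0 < pt N s0 3
      linarith
  obtain ⟨s2, hs2, hs2', cl2, p2, t2⟩ := end_right N s0 h0 h1 hT hC
  have hT' : Tri (dbl (pt ![N 1, N 0] (1 - s0))) := by
    rw [pt_swap]
    simpa using hT
  have hC' : ∀ s : ℝ, Tri (dbl (pt ![N 1, N 0] s)) → 0 < P (dbl (pt ![N 1, N 0] s)) ∧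
      (∀ k, D (dbl (pt ![N 1, N 0] s)) k < 4) ∧ ∀ q, 4 < S (dbl (pt ![N 1, N 0] s)) q := by
    intro s
    rw [pt_swap]
    exact hC (1 - s)
  obtain ⟨s1, hs1, hs1', cl1, p1, t1⟩ :=
    end_right ![N 1, N 0] (1 - s0) (by linarith) (by linarith) hT' hC'
  rw [pt_swap] at cl1 p1 t1
  rcases hs2'.eq_or_lt with h2 | h2
  · subst h2
    rw [pt_one] at cl2 p2
    have k2 := type_end _ cl2 p2
    rcases hs1'.eq_or_lt with h3 | h3
    · subst h3
      rw [sub_self, pt_zero] at cl1 p1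
      have k1 := type_end _ cl1 p1
      have e1 : (N 0 2 : ℝ) + N 0 3 = 4 := by exact_mod_cast k1
      have e2 : (N 1 2 : ℝ) + N 1 3 = 4 := by exact_mod_cast k2
      have := hW0.2.1
      unfold pt at this
      nlinarith
    · have i1 := int_end _ (fun e => pt_pos N (hpos e) (by linarith) (by linarith)) cl1 p1 t1
      exact mixed N (1 - s1) s0 (by linarith) (by linarith) i1 cl2 k2 hW0
  · have i2 := int_end _ (fun e => pt_pos N (hpos e) (by linarith) (by linarith)) cl2 p2 t2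
    rcases hs1'.eq_or_lt with h3 | h3
    · subst h3
      rw [sub_self, pt_zero] at cl1 p1
      have k1 := type_end _ cl1 p1
      have e : pt N s2 = pt ![N 1, N 0] (1 - s2) := by rw [pt_swap]; simp
      have e' : pt N s0 = pt ![N 1, N 0] (1 - s0) := by rw [pt_swap]; simp
      rw [e] at i2
      rw [e'] at hW0
      exact mixed ![N 1, N 0] (1 - s2) (1 - s0) (by linarith) (by linarith) i2 (by simpa using cl1)
        (by simpa using k1) hW0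
    · have i1 := int_end _ (fun e => pt_pos N (hpos e) (by linarith) (by linarith)) cl1 p1 t1
      have a1 := i1.1
      have a2 := i2.1
      have a0 := hW0.1
      unfold pt at a0 a1 a2
      nlinarith

end Pool.Agent.TetMir
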