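import Pool.Agent.TetDim.Defs

/-! # Tetrahedra with a mirror symmetry: definitions (helper57)

Edges: 0 = 01, 1 = 02, 2 = 03, 3 = 12, 4 = 13, 5 = 23. The mirror exchanges the vertices 0 and 1.
Symmetrised coordinates: edge 01, edge 23, edges 02 and 12 together, edges 03 and 13 together. -/

set_option autoImplicit false

namespace Pool.Agent.TetMir

open Pool.Agent.TetRel Pool.Agent.TetDim

/-- mirror symmetry exchanging the vertices 0 and 1, in terms of the edge lengths -/
def Mir (l : Fin 6 → ℝ) : Prop := l 1 = l 3 ∧ l 2 = l 4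

/-- the symmetrised dihedral angles (01, 23, 02, 03) -/
noncomputable def ang (v : Fin 4 → E3) : Fin 4 → ℝ := ![dih v 0, dih v 5, dih v 1, dih v 2]

/-- the symmetrised edge lengths -/
noncomputable def lens (v : Fin 4 → E3) : Fin 4 → ℝ :=
  ![len v 0, len v 5, 2 * len v 1, 2 * len v 2]

/-- twice the edge lengths of the mirror tetrahedron with symmetrised lengths `x` -/
def dbl (x : Fin 4 → ℝ) : Fin 6 → ℝ := ![2 * x 0, x 2, x 3, x 2, x 3, 2 * x 1]

/-- the line through two integer vectors -/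
noncomputable def pt (N : Fin 2 → Fin 4 → ℕ) (s : ℝ) (e : Fin 4) : ℝ :=
  (1 - s) * (N 0 e : ℝ) + s * (N 1 e : ℝ)

/-- the first trigonometric identity of a mirror tetrahedron, `x = (01, 23, 02, 03)` -/
noncomputable def f1 (x : Fin 4 → ℝ) : ℝ :=
  2 * (Real.cos (x 3) + Real.cos (x 0) * Real.cos (x 2)) ^ 2 +
    (Real.cos (x 1) + Real.cos (2 * x 2)) * Real.sin (x 0) ^ 2

/-- the second trigonometric identity -/
noncomputable def f2 (x : Fin 4 → ℝ) : ℝ :=
  2 * (Real.cos (x 2) + Real.cos (x 0) * Real.cos (x 3)) ^ 2 +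
    (Real.cos (x 1) + Real.cos (2 * x 3)) * Real.sin (x 0) ^ 2

/-- all ratios of edge lengths are algebraic -/
def AlgLen (v : Fin 4 → E3) : Prop := ∀ i j, IsAlgebraic ℚ (len v i / len v j)

end Pool.Agent.TetMir
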