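import Pool.Agent.TetMir57.Defs
import Pool.Agent.TetRot.Final

/-! # Tetrahedra with a nontrivial symmetry: assembly (helper21); the theorem on tetrahedra with a
plane of symmetry (`MR`) is a hypothesis here -/

set_option autoImplicit false

open Pool.Agent.TetRel

namespace Pool.Agent.TetMir

/-- A nontrivial permutation of the vertices contains, after relabeling, a half turn or a
reflection. -/
theorem perm_cases : ∀ σ : Equiv.Perm (Fin 4), σ ≠ 1 → ∃ ρ : Equiv.Perm (Fin 4), ∃ n : Fin 4,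
    (((σ ^ (n : ℕ)) (ρ 0) = ρ 1 ∧ (σ ^ (n : ℕ)) (ρ 2) = ρ 3 ∧ (σ ^ (n : ℕ)) (ρ 3) = ρ 2) ∨
     ((σ ^ (n : ℕ)) (ρ 0) = ρ 1 ∧ (σ ^ (n : ℕ)) (ρ 2) = ρ 2 ∧ (σ ^ (n : ℕ)) (ρ 3) = ρ 3) ∨
     ((σ ^ (n : ℕ)) (ρ 0) = ρ 1 ∧ (σ ^ (n : ℕ)) (ρ 1) = ρ 2 ∧ (σ ^ (n : ℕ)) (ρ 2) = ρ 0 ∧
      (σ ^ (n : ℕ)) (ρ 3) = ρ 3)) := by
  decide +kernel

/-- a tetrahedron has the same tilings after relabeling -/
theorem tiles_comp (v : Fin 4 → E3) (ρ : Equiv.Perm (Fin 4)) : Tiles (v ∘ ρ) ↔ Tiles v := by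
  unfold Tiles
  rw [EquivLike.range_comp v ρ]

theorem tilesPer_comp (v : Fin 4 → E3) (ρ : Equiv.Perm (Fin 4)) :
    TetRot.TilesPer (v ∘ ρ) ↔ TetRot.TilesPer v := by
  unfold TetRot.TilesPer
  rw [EquivLike.range_comp v ρ]

theorem hill_comp {v : Fin 4 → E3} (ρ : Equiv.Perm (Fin 4)) (h : TetRot.Hill (v ∘ ρ)) :
    TetRot.Hill v := by
  obtain ⟨τ, h1, h2, h3, h4⟩ := h
  exact ⟨τ.trans ρ, h1, h2, h3, h4⟩

theorem hill_comp' {v : Fin 4 → E3} (ρ : Equiv.Perm (Fin 4)) (h : TetRot.Hill v) :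
    TetRot.Hill (v ∘ ρ) := by
  have e : v = (v ∘ ρ) ∘ ρ.symm := by
    funext i
    simp
  rw [e] at h
  exact hill_comp ρ.symm h

/-- the main theorem, modulo the theorem on tetrahedra with a plane of symmetry -/
theorem sym_of (MR : ∀ v : Fin 4 → E3, AffineIndependent ℝ v → Mir (len v) → Tiles v → AlgLen v)
    (v : Fin 4 → E3) (hv : AffineIndependent ℝ v)
    (hsym : ∃ σ : Equiv.Perm (Fin 4), σ ≠ 1 ∧ ∀ i j, dist (v (σ i)) (v (σ j)) = dist (v i) (v j))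
    (hna : ∃ i j k l : Fin 4, ¬ IsAlgebraic ℚ (dist (v i) (v j) / dist (v k) (v l))) :
    (Tiles v ↔ TetRot.Hill v) ∧ (Tiles v → TetRot.TilesPer v) := by
  obtain ⟨σ, hσ, hd⟩ := hsym
  have hpow : ∀ (n : ℕ) (i j : Fin 4), dist (v ((σ ^ n) i)) (v ((σ ^ n) j)) = dist (v i) (v j) := by
    intro n
    induction n with
    | zero => intro i j; simp
    | succ n ih =>
      intro i j
      rw [pow_succ, Equiv.Perm.mul_apply, Equiv.Perm.mul_apply, ih, hd]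
  obtain ⟨ρ, n, hρ⟩ := perm_cases σ hσ
  have hp := hpow (n : ℕ)
  have hw : AffineIndependent ℝ (v ∘ ρ) := hv.comp_embedding ρ.toEmbedding
  have hna' : ∃ i j k l : Fin 4,
      ¬ IsAlgebraic ℚ (dist ((v ∘ ρ) i) ((v ∘ ρ) j) / dist ((v ∘ ρ) k) ((v ∘ ρ) l)) := by
    obtain ⟨i, j, k, l, h⟩ := hna
    exact ⟨ρ.symm i, ρ.symm j, ρ.symm k, ρ.symm l, by simpa using h⟩
  -- the mirror case
  have mir : dist (v (ρ 0)) (v (ρ 2)) = dist (v (ρ 1)) (v (ρ 2)) →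
      dist (v (ρ 0)) (v (ρ 3)) = dist (v (ρ 1)) (v (ρ 3)) →
      (Tiles v ↔ TetRot.Hill v) ∧ (Tiles v → TetRot.TilesPer v) := by
    intro h1 h2
    have hno : ¬ Tiles v := by
      intro hT
      have hA := MR (v ∘ ρ) hw ⟨h1, h2⟩ ((tiles_comp v ρ).2 hT)
      obtain ⟨i, j, k, l, h⟩ := hna'
      have key : ∀ i j : Fin 4, dist ((v ∘ ρ) i) ((v ∘ ρ) j) = 0 ∨
          ∃ e, dist ((v ∘ ρ) i) ((v ∘ ρ) j) = len (v ∘ ρ) e := by
        intro i j
        by_cases hij : i = j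
        · left
          rw [hij, dist_self]
        · right
          have : ∃ e : Fin 6, (ea e = i ∧ eb e = j) ∨ (ea e = j ∧ eb e = i) := by
            revert i j
            decide
          obtain ⟨e, ⟨h1, h2⟩ | ⟨h1, h2⟩⟩ := this
          · exact ⟨e, by rw [len, h1, h2]⟩
          · exact ⟨e, by rw [len, h1, h2, dist_comm]⟩
      rcases key i j with h1 | ⟨e, h1⟩
      · rw [h1, zero_div] at h
        exact h isAlgebraic_zero
      rcases key k l with h2 | ⟨f, h2⟩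
      · rw [h2, div_zero] at h
        exact h isAlgebraic_zero
      rw [h1, h2] at h
      exact h (hA e f)
    exact ⟨⟨fun hT => absurd hT hno, fun h => absurd (TetRot.per_of_hill hv h).tiles hno⟩,
      fun hT => absurd hT hno⟩
  rcases hρ with ⟨r0, r2, r3⟩ | ⟨r0, r2, r3⟩ | ⟨r0, r1, r2, r3⟩
  · have h1 : dist ((v ∘ ρ) 0) ((v ∘ ρ) 2) = dist ((v ∘ ρ) 1) ((v ∘ ρ) 3) := by
      have := hp (ρ 0) (ρ 2)
      rw [r0, r2] at this
      exact this.symm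
    have h2 : dist ((v ∘ ρ) 0) ((v ∘ ρ) 3) = dist ((v ∘ ρ) 1) ((v ∘ ρ) 2) := by
      have := hp (ρ 0) (ρ 3)
      rw [r0, r3] at this
      exact this.symm
    obtain ⟨h3, h4⟩ := TetRot.final (v ∘ ρ) hw h1 h2 hna'
    refine ⟨⟨fun hT => hill_comp ρ (h3.1 ((tiles_comp v ρ).2 hT)), fun h =>
      (tiles_comp v ρ).1 (h3.2 (hill_comp' ρ h))⟩, fun hT =>
      (tilesPer_comp v ρ).1 (h4 ((tiles_comp v ρ).2 hT))⟩
  · refine mir ?_ ?_
    · have := hp (ρ 0) (ρ 2)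
      rw [r0, r2] at this
      exact this.symm
    · have := hp (ρ 0) (ρ 3)
      rw [r0, r3] at this
      exact this.symm
  · refine mir ?_ ?_
    · have := hp (ρ 1) (ρ 2)
      rw [r1, r2, dist_comm] at this
      exact this
    · have := hp (ρ 0) (ρ 3)
      rw [r0, r3] at this
      exact this.symm

end Pool.Agent.TetMir
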